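import Pool.Agent.Helper10.RS.Goals2
import Pool.Agent.Helper46.RS.SMO

/-!
# Project RS, packet SMOE: at most `n^ε` primes `r ≤ n` have `r - 1` smooth

The smooth numbers are counted by Rankin's method.
-/

set_option autoImplicit false

open Finset Real Filter
open Pool.Agent.Helper10.RS

namespace Pool.Agent.Helper14.RS

/-- `m ↦ m ^ (-σ)` -/
noncomputable def fz (σ : ℝ) : ℕ →* ℝ where
  toFun m := (m : ℝ) ^ (-σ)
  map_one' := by simp
  map_mul' a b := by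
    rw [Nat.cast_mul, Real.mul_rpow (Nat.cast_nonneg a) (Nat.cast_nonneg b)]

theorem fz_apply (σ : ℝ) (m : ℕ) : fz σ m = (m : ℝ) ^ (-σ) := rfl

theorem fz_nonneg (σ : ℝ) (m : ℕ) : 0 ≤ fz σ m := by
  rw [fz_apply]
  positivity

theorem fz_le {σ : ℝ} (hσ : 0 < σ) {p : ℕ} (hp : p.Prime) : fz σ p ≤ (2 : ℝ) ^ (-σ) := by
  rw [fz_apply]
  exact Real.rpow_le_rpow_of_nonpos (by norm_num) (by exact_mod_cast hp.two_le) (by linarith)

theorem two_lt {σ : ℝ} (hσ : 0 < σ) : (2 : ℝ) ^ (-σ) < 1 :=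
  Real.rpow_lt_one_of_one_lt_of_neg (by norm_num) (by linarith)

theorem prod_le {σ : ℝ} (hσ : 0 < σ) (L : ℕ) :
    ∏ p ∈ L.primesBelow, (1 - fz σ p)⁻¹ ≤
      Real.exp ((1 - (2 : ℝ) ^ (-σ))⁻¹ * ∑ m ∈ range L, (m : ℝ) ^ (-σ)) := by
  have h2 := two_lt hσ
  set C : ℝ := (1 - (2 : ℝ) ^ (-σ))⁻¹ with hC
  have hC0 : 0 < C := inv_pos.2 (by linarith)
  have h1 : ∀ p ∈ L.primesBelow, (1 - fz σ p)⁻¹ ≤ Real.exp (C * fz σ p) := by
    intro p hp
    have hpp := Nat.prime_of_mem_primesBelow hp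
    have h3 := fz_le hσ hpp
    have h4 := fz_nonneg σ p
    have h5 : 0 < 1 - fz σ p := by linarith
    have h6 : (1 - fz σ p)⁻¹ ≤ C := inv_anti₀ (by linarith) (by linarith)
    calc (1 - fz σ p)⁻¹ = 1 + (1 - fz σ p)⁻¹ * fz σ p := by field_simp; ring
      _ ≤ 1 + C * fz σ p := by gcongr
      _ ≤ Real.exp (C * fz σ p) := by linarith [Real.add_one_le_exp (C * fz σ p)]
  calc ∏ p ∈ L.primesBelow, (1 - fz σ p)⁻¹ ≤ ∏ p ∈ L.primesBelow, Real.exp (C * fz σ p) := by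
        refine Finset.prod_le_prod (fun p hp => ?_) h1
        have hpp := Nat.prime_of_mem_primesBelow hp
        have h3 := fz_le hσ hpp
        exact (inv_pos.2 (by linarith)).le
    _ = Real.exp (C * ∑ p ∈ L.primesBelow, fz σ p) := by
        rw [← Real.exp_sum, Finset.mul_sum]
    _ ≤ _ := by
        refine Real.exp_le_exp.2 (mul_le_mul_of_nonneg_left ?_ hC0.le)
        exact Finset.sum_le_sum_of_subset_of_nonneg (Finset.filter_subset _ _)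
          fun m _ _ => fz_nonneg σ m

theorem card_le {σ : ℝ} (hσ : 0 < σ) (n L : ℕ) :
    ((Nat.smoothNumbersUpTo n L).card : ℝ) ≤
      (n : ℝ) ^ σ * Real.exp ((1 - (2 : ℝ) ^ (-σ))⁻¹ * ∑ m ∈ range L, (m : ℝ) ^ (-σ)) := by
  have hf : ∀ {p : ℕ}, p.Prime → ‖fz σ p‖ < 1 := by
    intro p hp
    rw [Real.norm_of_nonneg (fz_nonneg σ p)]
    exact (fz_le hσ hp).trans_lt (two_lt hσ)
  have h1 := (EulerProduct.summable_and_hasSum_smoothNumbers_prod_primesBelow_geometric hf L).2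
  have hmem : ∀ m ∈ Nat.smoothNumbersUpTo n L, m ∈ Nat.smoothNumbers L := fun m hm =>
    (Nat.mem_smoothNumbersUpTo.1 hm).2
  have h2 : ∑ m ∈ Nat.smoothNumbersUpTo n L, fz σ m ≤ ∏ p ∈ L.primesBelow, (1 - fz σ p)⁻¹ := by
    classical
    have h3 := sum_le_hasSum ((Nat.smoothNumbersUpTo n L).subtype (· ∈ Nat.smoothNumbers L))
      (fun m _ => fz_nonneg σ m) h1
    rwa [Finset.sum_subtype_of_mem (fun m => fz σ m) hmem] at h3
  calc ((Nat.smoothNumbersUpTo n L).card : ℝ) = ∑ m ∈ Nat.smoothNumbersUpTo n L, (1 : ℝ) := by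
        simp
    _ ≤ ∑ m ∈ Nat.smoothNumbersUpTo n L, (n : ℝ) ^ σ * fz σ m := by
        refine Finset.sum_le_sum fun m hm => ?_
        have hmn : m ≤ n := (Nat.mem_smoothNumbersUpTo.1 hm).1
        have hm0 : m ≠ 0 := Nat.ne_zero_of_mem_smoothNumbers (hmem m hm)
        have hm1 : (0 : ℝ) < m := by exact_mod_cast Nat.pos_of_ne_zero hm0
        rw [fz_apply, Real.rpow_neg hm1.le, ← div_eq_mul_inv, le_div_iff₀ (by positivity),
          one_mul]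
        exact Real.rpow_le_rpow hm1.le (by exact_mod_cast hmn) hσ.le
    _ = (n : ℝ) ^ σ * ∑ m ∈ Nat.smoothNumbersUpTo n L, fz σ m := by rw [Finset.mul_sum]
    _ ≤ _ := mul_le_mul_of_nonneg_left (h2.trans (prod_le hσ L)) (by positivity)

theorem set_le (n L : ℕ) (hn : 1 ≤ n) (h1 : Real.log n / 8 ≤ L) (h2 : 3000 ≤ L) :
    {r : ℕ | r ≤ n ∧ r.Prime ∧ ∀ l : ℕ, l.Prime → l ∣ r - 1 → (l - 2) ^ l < n}.ncard
      ≤ (Nat.smoothNumbersUpTo n L).card := by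
  have hsub : ∀ r ∈ {r : ℕ | r ≤ n ∧ r.Prime ∧
      ∀ l : ℕ, l.Prime → l ∣ r - 1 → (l - 2) ^ l < n},
      (fun r => r - 1) r ∈ ((Nat.smoothNumbersUpTo n L : Finset ℕ) : Set ℕ) := by
    rintro r ⟨hr, hp, hl⟩
    simp only [mem_coe, Nat.mem_smoothNumbersUpTo]
    refine ⟨by omega, ?_⟩
    rw [Nat.mem_smoothNumbers']
    intro p hp' hd
    by_contra hc
    have hLp : L ≤ p := not_lt.mp hc
    have h3 : Real.log n / 8 ≤ p := h1.trans (by exact_mod_cast hLp)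
    have h4 := Pool.Agent.Helper46.RS.smo_key n p hn h3 (h2.trans hLp)
    have h5 := hl p hp' hd
    omega
  have hinj : Set.InjOn (fun r : ℕ => r - 1) {r : ℕ | r ≤ n ∧ r.Prime ∧
      ∀ l : ℕ, l.Prime → l ∣ r - 1 → (l - 2) ^ l < n} := by
    rintro a ⟨_, ha, _⟩ b ⟨_, hb, _⟩ hab
    have := ha.two_le
    have := hb.two_le
    simp only at hab
    omega
  calc _ ≤ (((Nat.smoothNumbersUpTo n L : Finset ℕ) : Set ℕ)).ncard :=
        Set.ncard_le_ncard_of_injOn _ hsub hinj (Finset.finite_toSet _)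
    _ = (Nat.smoothNumbersUpTo n L).card := Set.ncard_coe_finset _

theorem p_smoe : SMOE := by
  intro ε hε
  set σ : ℝ := ε / 4 with hσd
  have hσ : 0 < σ := by positivity
  have h2 := two_lt hσ
  set C : ℝ := (1 - (2 : ℝ) ^ (-σ))⁻¹ with hC
  have hC0 : 0 < C := inv_pos.2 (by linarith)
  -- Cesaro
  have t1 : Tendsto (fun m : ℕ => (m : ℝ) ^ (-σ)) atTop (nhds 0) :=
    (tendsto_rpow_neg_atTop hσ).comp tendsto_natCast_atTop_atTop
  have t2 := t1.cesaro.eventually_lt_const (u := ε / (4 * C)) (by positivity)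
  have tL : Tendsto (fun n : ℕ => ⌈Real.log n / 8⌉₊) atTop atTop := by
    refine tendsto_nat_ceil_atTop.comp ?_
    exact (Real.tendsto_log_atTop.comp tendsto_natCast_atTop_atTop).atTop_div_const (by norm_num)
  have t3 := tL.eventually t2
  have e1 : ∀ᶠ x : ℝ in atTop, 10 * Real.log x ≤ x ^ (ε / 2) ∧ 12 ≤ x ^ (ε / 2) := by
    have h1 := (isLittleO_log_rpow_atTop (show (0 : ℝ) < ε / 2 by positivity)).def
      (show (0 : ℝ) < 1 / 10 by norm_num)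
    have h2 := (tendsto_rpow_atTop (show (0 : ℝ) < ε / 2 by positivity)).eventually_ge_atTop 12
    filter_upwards [h1, h2, eventually_ge_atTop (1 : ℝ)] with x hx1 hx2 hx3
    have hp : 0 ≤ x ^ (ε / 2) := by positivity
    rw [Real.norm_of_nonneg (Real.log_nonneg hx3), Real.norm_of_nonneg hp] at hx1
    exact ⟨by linarith, hx2⟩
  have e3 : ∀ᶠ x : ℝ in atTop, 24000 ≤ Real.log x :=
    Real.tendsto_log_atTop.eventually_ge_atTop 24000
  have e4 := tendsto_natCast_atTop_atTop (R := ℝ) |>.eventually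
    (e1.and (e3.and (eventually_ge_atTop (1 : ℝ))))
  obtain ⟨n₀, hn₀⟩ := eventually_atTop.mp (e4.and t3)
  refine ⟨n₀, fun n hn => ?_⟩
  obtain ⟨⟨⟨h1, h12⟩, h3, h4⟩, h5⟩ := hn₀ n hn
  set L : ℕ := ⌈Real.log n / 8⌉₊ with hL
  have hL1 : Real.log n / 8 ≤ L := Nat.le_ceil _
  have hL2 : (L : ℝ) ≤ Real.log n / 8 + 1 := (Nat.ceil_lt_add_one (by linarith)).le
  have hL3 : 3000 ≤ L := by
    have : (3000 : ℝ) ≤ L := by linarith
    exact_mod_cast this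
  have hL0 : (0 : ℝ) < L := by exact_mod_cast (by omega : 0 < L)
  have hn1 : 1 ≤ n := by exact_mod_cast h4
  have hn0 : (0 : ℝ) < n := by linarith
  have hc := set_le n L hn1 hL1 hL3
  have hc' : ((({r : ℕ | r ≤ n ∧ r.Prime ∧ ∀ l : ℕ, l.Prime → l ∣ r - 1 → (l - 2) ^ l < n}.ncard
      : ℕ) : ℝ)) ≤ ((Nat.smoothNumbersUpTo n L).card : ℝ) := by exact_mod_cast hc
  have h6 := card_le hσ n L
  have h7 : C * ∑ m ∈ range L, (m : ℝ) ^ (-σ) ≤ σ * Real.log n := by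
    have h8 : ∑ m ∈ range L, (m : ℝ) ^ (-σ) ≤ ε / (4 * C) * L := by
      have h9 : (L : ℝ)⁻¹ * ∑ m ∈ range L, (m : ℝ) ^ (-σ) ≤ ε / (4 * C) := h5.le
      rw [inv_mul_le_iff₀ hL0] at h9
      linarith
    calc C * ∑ m ∈ range L, (m : ℝ) ^ (-σ) ≤ C * (ε / (4 * C) * L) :=
          mul_le_mul_of_nonneg_left h8 hC0.le
      _ = σ * L := by rw [hσd]; field_simp
      _ ≤ σ * Real.log n := mul_le_mul_of_nonneg_left (by linarith) hσ.le
  have h8 : ((Nat.smoothNumbersUpTo n L).card : ℝ) ≤ (n : ℝ) ^ (ε / 2) := by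
    calc ((Nat.smoothNumbersUpTo n L).card : ℝ)
        ≤ (n : ℝ) ^ σ * Real.exp (C * ∑ m ∈ range L, (m : ℝ) ^ (-σ)) := h6
      _ ≤ (n : ℝ) ^ σ * Real.exp (σ * Real.log n) := by gcongr
      _ = (n : ℝ) ^ σ * (n : ℝ) ^ σ := by
          rw [Real.rpow_def_of_pos hn0, mul_comm σ]
      _ = (n : ℝ) ^ (ε / 2) := by
          rw [← Real.rpow_add hn0]
          congr 1
          rw [hσd]
          ring
  have h9 : (n : ℝ) ^ ε = (n : ℝ) ^ (ε / 2) * (n : ℝ) ^ (ε / 2) := by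
    rw [← Real.rpow_add hn0]
    congr 1
    ring
  rw [h9]
  have h10 := hc'.trans h8
  set y : ℝ := (n : ℝ) ^ (ε / 2) with hy
  nlinarith

theorem est (ε : ℝ) (hε : 0 < ε) : ∃ n₀ : ℕ, ∀ n : ℕ, n₀ ≤ n → 1 ≤ n ∧
    Real.log n / 8 ≤ ⌈Real.log n / 8⌉₊ ∧ 3000 ≤ ⌈Real.log n / 8⌉₊ ∧
    ((Nat.smoothNumbersUpTo n ⌈Real.log n / 8⌉₊).card : ℝ) ≤ (n : ℝ) ^ ε := by
  set σ : ℝ := ε / 2 with hσd
  have hσ : 0 < σ := by positivity
  have h2 := two_lt hσ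
  set C : ℝ := (1 - (2 : ℝ) ^ (-σ))⁻¹ with hC
  have hC0 : 0 < C := inv_pos.2 (by linarith)
  have t1 : Tendsto (fun m : ℕ => (m : ℝ) ^ (-σ)) atTop (nhds 0) :=
    (tendsto_rpow_neg_atTop hσ).comp tendsto_natCast_atTop_atTop
  have t2 := t1.cesaro.eventually_lt_const (u := ε / (2 * C)) (by positivity)
  have tL : Tendsto (fun n : ℕ => ⌈Real.log n / 8⌉₊) atTop atTop := by
    refine tendsto_nat_ceil_atTop.comp ?_
    exact (Real.tendsto_log_atTop.comp tendsto_natCast_atTop_atTop).atTop_div_const (by norm_num)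
  have t3 := tL.eventually t2
  have e3 : ∀ᶠ x : ℝ in atTop, 24000 ≤ Real.log x :=
    Real.tendsto_log_atTop.eventually_ge_atTop 24000
  have e4 := tendsto_natCast_atTop_atTop (R := ℝ) |>.eventually
    (e3.and (eventually_ge_atTop (1 : ℝ)))
  obtain ⟨n₀, hn₀⟩ := eventually_atTop.mp (e4.and t3)
  refine ⟨n₀, fun n hn => ?_⟩
  obtain ⟨⟨h3, h4⟩, h5⟩ := hn₀ n hn
  set L : ℕ := ⌈Real.log n / 8⌉₊ with hL
  have hL1 : Real.log n / 8 ≤ L := Nat.le_ceil _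
  have hL2 : (L : ℝ) ≤ Real.log n / 8 + 1 := (Nat.ceil_lt_add_one (by linarith)).le
  have hL3 : 3000 ≤ L := by
    have : (3000 : ℝ) ≤ L := by linarith
    exact_mod_cast this
  have hL0 : (0 : ℝ) < L := by exact_mod_cast (by omega : 0 < L)
  have hn1 : 1 ≤ n := by exact_mod_cast h4
  have hn0 : (0 : ℝ) < n := by linarith
  have h6 := card_le hσ n L
  have h7 : C * ∑ m ∈ range L, (m : ℝ) ^ (-σ) ≤ σ * Real.log n := by
    have h8 : ∑ m ∈ range L, (m : ℝ) ^ (-σ) ≤ ε / (2 * C) * L := by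
      have h9 : (L : ℝ)⁻¹ * ∑ m ∈ range L, (m : ℝ) ^ (-σ) ≤ ε / (2 * C) := h5.le
      rw [inv_mul_le_iff₀ hL0] at h9
      linarith
    calc C * ∑ m ∈ range L, (m : ℝ) ^ (-σ) ≤ C * (ε / (2 * C) * L) :=
          mul_le_mul_of_nonneg_left h8 hC0.le
      _ = σ * L := by rw [hσd]; field_simp
      _ ≤ σ * Real.log n := mul_le_mul_of_nonneg_left (by linarith) hσ.le
  refine ⟨hn1, hL1, hL3, ?_⟩
  calc ((Nat.smoothNumbersUpTo n L).card : ℝ)
      ≤ (n : ℝ) ^ σ * Real.exp (C * ∑ m ∈ range L, (m : ℝ) ^ (-σ)) := h6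
    _ ≤ (n : ℝ) ^ σ * Real.exp (σ * Real.log n) := by gcongr
    _ = (n : ℝ) ^ σ * (n : ℝ) ^ σ := by
        rw [Real.rpow_def_of_pos hn0, mul_comm σ]
    _ = (n : ℝ) ^ ε := by
        rw [← Real.rpow_add hn0]
        congr 1
        rw [hσd]
        ring

/-- the same for all integers -/
theorem smooth_count : ∀ ε : ℝ, 0 < ε → ∃ n₀ : ℕ, ∀ n : ℕ, n₀ ≤ n →
    (({D : ℕ | 0 < D ∧ D ≤ n ∧ ∀ l : ℕ, l.Prime → l ∣ D → (l - 2) ^ l < n}.ncard : ℕ) : ℝ) ≤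
      (n : ℝ) ^ ε := by
  intro ε hε
  obtain ⟨n₀, hn₀⟩ := est ε hε
  refine ⟨n₀, fun n hn => ?_⟩
  obtain ⟨h1, h2, h3, h4⟩ := hn₀ n hn
  refine le_trans ?_ h4
  have hsub : {D : ℕ | 0 < D ∧ D ≤ n ∧ ∀ l : ℕ, l.Prime → l ∣ D → (l - 2) ^ l < n} ⊆
      ((Nat.smoothNumbersUpTo n ⌈Real.log n / 8⌉₊ : Finset ℕ) : Set ℕ) := by
    rintro D ⟨hD0, hDn, hl⟩
    simp only [mem_coe, Nat.mem_smoothNumbersUpTo]
    refine ⟨hDn, ?_⟩
    rw [Nat.mem_smoothNumbers']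
    intro p hp hd
    by_contra hc
    have hLp : ⌈Real.log n / 8⌉₊ ≤ p := not_lt.mp hc
    have h5 := Pool.Agent.Helper46.RS.smo_key n p h1
      (h2.trans (by exact_mod_cast hLp)) (h3.trans hLp)
    have h6 := hl p hp hd
    omega
  have h7 := Set.ncard_le_ncard hsub (Finset.finite_toSet _)
  rw [Set.ncard_coe_finset] at h7
  exact_mod_cast h7

end Pool.Agent.Helper14.RS
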