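import Pool.Agent.Helper36.EV.Base

/-! # Continuity of the solution and of the right side along it -/

namespace Pool.Agent.Helper14.RS

open Set Filter Topology Pool.Agent.Helper36.EV

variable {X H : Type} [AddCommGroup X] [Module ℝ X] [NormedAddCommGroup H] [NormedSpace ℝ H]

theorem q_add_le (S : Scale X H) (m : ℕ) (x y : X) :
    S.q m (x + y) ≤ 2 * (S.q m x + S.q m y) := by
  have h1 := S.q_add m x y
  have h2 := S.q_add m x (-y)
  have h3 := S.q_nonneg m (x + -y)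
  rw [h2, S.q_neg, map_neg] at h3
  linarith

theorem sol_cont {S : Scale X H} (E : Evo S) {u : ℝ → X} (hu : E.IsSol u) (m : ℕ) {t : ℝ}
    (ht : t ∈ Icc 0 E.τ) {δ : ℝ} (hδ : 0 < δ) :
    ∃ η > 0, ∀ s ∈ Icc 0 E.τ, |s - t| ≤ η → S.q m (u s - u t) ≤ δ := by
  obtain ⟨η, hη, h⟩ := hu.der m t ht 1 one_pos
  set B := S.q m (E.F t (u t)) with hBd
  have hB : 0 ≤ B := S.q_nonneg _ _
  refine ⟨min η (min 1 (δ / (2 * (1 + B)))), by positivity, fun s hs hst => ?_⟩
  have h1 : |s - t| ≤ η := hst.trans (min_le_left _ _)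
  have h2 : |s - t| ≤ 1 := hst.trans ((min_le_right _ _).trans (min_le_left _ _))
  have h3 : |s - t| ≤ δ / (2 * (1 + B)) :=
    hst.trans ((min_le_right _ _).trans (min_le_right _ _))
  have h4 : (s - t) ^ 2 ≤ δ / (2 * (1 + B)) := by
    rw [← sq_abs]
    nlinarith [abs_nonneg (s - t)]
  have h5 := h s hs h1
  have h6 : u s - u t = (u s - u t - (s - t) • E.F t (u t)) + (s - t) • E.F t (u t) := by abel
  rw [h6]
  refine (q_add_le S m _ _).trans ?_
  rw [S.q_smul, ← hBd]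
  calc 2 * (S.q m (u s - u t - (s - t) • E.F t (u t)) + (s - t) ^ 2 * B)
      ≤ 2 * (1 * (s - t) ^ 2 + (s - t) ^ 2 * B) := by linarith
    _ = (s - t) ^ 2 * (2 * (1 + B)) := by ring
    _ ≤ δ / (2 * (1 + B)) * (2 * (1 + B)) := mul_le_mul_of_nonneg_right h4 (by positivity)
    _ = δ := by field_simp

theorem sol_F_cont {S : Scale X H} (E : Evo S) {u : ℝ → X} (hu : E.IsSol u) (m : ℕ) {t : ℝ}
    (ht : t ∈ Icc 0 E.τ) {δ : ℝ} (hδ : 0 < δ) :
    ∃ η > 0, ∀ s ∈ Icc 0 E.τ, |s - t| ≤ η → S.q m (E.F s (u s) - E.F t (u t)) ≤ δ := by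
  by_contra hcon
  push Not at hcon
  have h1 : ∀ n : ℕ, ∃ s ∈ Icc 0 E.τ, |s - t| ≤ 1 / ((n : ℝ) + 1) ∧
      δ < S.q m (E.F s (u s) - E.F t (u t)) := fun n => hcon _ (by positivity)
  choose s hs hst hd using h1
  have hlim : Tendsto s atTop (𝓝 t) := by
    rw [tendsto_iff_norm_sub_tendsto_zero]
    exact squeeze_zero (fun n => norm_nonneg _) hst tendsto_one_div_add_atTop_nhds_zero_nat
  have hL : S.Lim (fun n => u (s n)) (u t) := by
    intro k
    rw [Metric.tendsto_atTop]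
    intro ε hε
    obtain ⟨η, hη, h⟩ := sol_cont E hu k ht (half_pos hε)
    obtain ⟨N, hN⟩ := exists_nat_one_div_lt hη
    refine ⟨N, fun n hn => ?_⟩
    have h2 : |s n - t| ≤ η := by
      refine (hst n).trans (le_trans ?_ hN.le)
      apply one_div_le_one_div_of_le (by positivity)
      have : (N : ℝ) ≤ n := by exact_mod_cast hn
      linarith
    have h3 := h (s n) (hs n) h2
    rw [Real.dist_eq, sub_zero, abs_of_nonneg (S.q_nonneg _ _)]
    linarith
  have h2 := E.F0 s (fun n => u (s n)) t (u t)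
    (fun n => ⟨(hs n).1, (hs n).2.trans E.hτT⟩) ⟨ht.1, ht.2.trans E.hτT⟩ hlim hL m
  have h3 : δ ≤ 0 := ge_of_tendsto' h2 fun n => (hd n).le
  linarith

end Pool.Agent.Helper14.RS
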