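import Pool.Agent.Helper36.RS.Goals

/-! # Energy estimate of the mixed system -/

namespace Pool.Agent.Helper14.RS

open Set Filter Topology MeasureTheory Pool.Agent.Helper47.RF Pool.Agent.Helper36.EV
  Pool.Agent.Helper36.RS
open scoped ContDiff

theorem yo {x C a b ε : ℝ} (hC : 0 ≤ C) (ha : 0 ≤ a) (hb : 0 ≤ b) (hε : 0 < ε)
    (h : x ^ 2 ≤ C * (a * b)) : x ≤ ε * a + C / (4 * ε) * b := by
  have h1 : 0 ≤ ε * a + C / (4 * ε) * b := by positivity
  have h2 : x ^ 2 ≤ (ε * a + C / (4 * ε) * b) ^ 2 := by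
    have h3 : (ε * a + C / (4 * ε) * b) ^ 2 =
        (ε * a - C / (4 * ε) * b) ^ 2 + C * (a * b) := by
      field_simp
      ring
    rw [h3]
    nlinarith [sq_nonneg (ε * a - C / (4 * ε) * b)]
  exact (le_abs_self x).trans (abs_le_of_sq_le_sq h2 h1)

theorem unif {ι : Type*} [Fintype ι] (C : ι → ℝ) : ∃ K, 0 ≤ K ∧ ∀ i, C i ≤ K :=
  ⟨∑ i, |C i|, Finset.sum_nonneg fun _ _ => abs_nonneg _, fun i =>
    (le_abs_self _).trans (Finset.single_le_sum (f := fun j => |C j|)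
      (fun _ _ => abs_nonneg _) (Finset.mem_univ i))⟩

variable {I J : Type} [Fintype I] [Fintype J]

/-- the quantity on the right sides -/
noncomputable def QQ (m : ℕ) (u : I → XS) (v : J → XS) : ℝ :=
  1 + ∑ i, sn (m + 1) (u i) + ∑ j, sn m (v j)

theorem QQ_pos (m : ℕ) (u : I → XS) (v : J → XS) : 1 ≤ QQ m u v := by
  have h1 : 0 ≤ ∑ i, sn (m + 1) (u i) := Finset.sum_nonneg fun _ _ => sn_nonneg _ _
  have h2 : 0 ≤ ∑ j, sn m (v j) := Finset.sum_nonneg fun _ _ => sn_nonneg _ _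
  unfold QQ
  linarith

theorem u_le_QQ (m : ℕ) (u : I → XS) (v : J → XS) (i : I) : sn (m + 1) (u i) ≤ QQ m u v := by
  have h1 : sn (m + 1) (u i) ≤ ∑ i, sn (m + 1) (u i) :=
    Finset.single_le_sum (f := fun i => sn (m + 1) (u i)) (fun _ _ => sn_nonneg _ _)
      (Finset.mem_univ i)
  have h2 : 0 ≤ ∑ j, sn m (v j) := Finset.sum_nonneg fun _ _ => sn_nonneg _ _
  unfold QQ
  linarith

theorem part_u (hS : G_SOB) (hP : G_PRS) (hM : G_MVP) (D : QLD I J) (m : ℕ) (hm : 13 ≤ m) (L : ℝ)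
    (ε : ℝ) (hε : 0 < ε) : ∃ C, 0 ≤ C ∧ ∀ (u : I → XS) (v : J → XS), (∀ i, sn m (u i) ≤ L) →
      (∀ j, sn (m - 1) (v j) ≤ L) → ∀ i, bf (m + 1) (u i) (D.FI u v i) ≤
        ε * ∑ j, sn (m + 1) (v j) + C * QQ m u v := by
  have h0 : ∀ i, ∃ C, ∀ z : I ⊕ J → XS, (∀ i, sn (m + 1 - 2) (z i) ≤ L) →
      sn (m + 1) (MvPolynomial.aeval z (D.G i)) ≤ C * (1 + ∑ i, sn (m + 1) (z i)) :=
    fun i => (hM hS hP (I ⊕ J) (D.G i)).1 (m + 1) (by omega) L
  choose C0 hC0 using h0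
  obtain ⟨K, hK0, hK⟩ := unif C0
  set e := ε / (K + 1) with he
  have hepos : 0 < e := by positivity
  have heK : e * K ≤ ε := by
    rw [he, div_mul_eq_mul_div, div_le_iff₀ (by positivity)]
    nlinarith
  refine ⟨e * K + 1 / (4 * e), by positivity, fun u v hu hv i => ?_⟩
  set S := ∑ j, sn (m + 1) (v j) with hSd
  have hS0 : 0 ≤ S := Finset.sum_nonneg fun _ _ => sn_nonneg _ _
  have hQ := QQ_pos m u v
  have h1 : sn (m + 1) (D.FI u v i) ≤ K * (QQ m u v + S) := by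
    have h2 := hC0 i (Sum.elim u v) (by
      rintro (i | j)
      · exact (sn_mono (by omega) _).trans (hu i)
      · exact (sn_mono (by omega) _).trans (hv j))
    refine h2.trans ?_
    have h3 : 1 + ∑ i, sn (m + 1) (Sum.elim u v i) ≤ QQ m u v + S := by
      rw [Fintype.sum_sum_type]
      simp only [Sum.elim_inl, Sum.elim_inr]
      unfold QQ
      have h4 : 0 ≤ ∑ j, sn m (v j) := Finset.sum_nonneg fun _ _ => sn_nonneg _ _
      linarith
    have h5 : 0 ≤ 1 + ∑ i, sn (m + 1) (Sum.elim u v i) := by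
      have : 0 ≤ ∑ i, sn (m + 1) (Sum.elim u v i) := Finset.sum_nonneg fun _ _ => sn_nonneg _ _
      linarith
    calc C0 i * (1 + ∑ i, sn (m + 1) (Sum.elim u v i))
        ≤ K * (1 + ∑ i, sn (m + 1) (Sum.elim u v i)) := mul_le_mul_of_nonneg_right (hK i) h5
      _ ≤ K * (QQ m u v + S) := mul_le_mul_of_nonneg_left h3 hK0
  have h2 := cs (m + 1) (u i) (D.FI u v i)
  have h3 : bf (m + 1) (u i) (D.FI u v i) ≤ e * sn (m + 1) (D.FI u v i) +
      1 / (4 * e) * sn (m + 1) (u i) := by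
    refine yo zero_le_one (sn_nonneg _ _) (sn_nonneg _ _) hepos ?_
    linarith
  have h4 : e * sn (m + 1) (D.FI u v i) ≤ e * (K * (QQ m u v + S)) :=
    mul_le_mul_of_nonneg_left h1 hepos.le
  have h5 : 1 / (4 * e) * sn (m + 1) (u i) ≤ 1 / (4 * e) * QQ m u v :=
    mul_le_mul_of_nonneg_left (u_le_QQ m u v i) (by positivity)
  have h6 : e * K * S ≤ ε * S := mul_le_mul_of_nonneg_right heK hS0
  nlinarith

theorem sum_zj_le (k : ℕ) (u : I → XS) (v : J → XS) :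
    1 + ∑ q, sn k (zj u v q) ≤ 4 * QQ k u v := by
  have h1 : ∑ q, sn k (zj u v q) = ∑ i, sn k (u i) + (∑ p : Fin 3 × I, sn k (Ed p.1 (u p.2)) +
      ∑ j, sn k (v j)) := by
    unfold zj
    rw [Fintype.sum_sum_type, Fintype.sum_sum_type]
    rfl
  have h2 : ∑ p : Fin 3 × I, sn k (Ed p.1 (u p.2)) ≤ 3 * ∑ i, sn (k + 1) (u i) := by
    rw [Fintype.sum_prod_type]
    have h3 : ∀ p : Fin 3, ∑ i, sn k (Ed p (u i)) ≤ ∑ i, sn (k + 1) (u i) := fun p =>
      Finset.sum_le_sum fun i _ => sn_Ed k p (u i)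
    calc ∑ p : Fin 3, ∑ i, sn k (Ed p (u i)) ≤ ∑ p : Fin 3, ∑ i, sn (k + 1) (u i) :=
          Finset.sum_le_sum fun p _ => h3 p
      _ = 3 * ∑ i, sn (k + 1) (u i) := by simp
  have h4 : ∑ i, sn k (u i) ≤ ∑ i, sn (k + 1) (u i) :=
    Finset.sum_le_sum fun i _ => sn_mono (by omega) _
  have h5 : 0 ≤ ∑ j, sn k (v j) := Finset.sum_nonneg fun _ _ => sn_nonneg _ _
  have h6 : 0 ≤ ∑ i, sn (k + 1) (u i) := Finset.sum_nonneg fun _ _ => sn_nonneg _ _
  unfold QQ
  rw [h1]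
  linarith

theorem part_b (hS : G_SOB) (hP : G_PRS) (hM : G_MVP) (D : QLD I J) (m : ℕ) (hm : 13 ≤ m) (L : ℝ)
    (ε : ℝ) (hε : 0 < ε) : ∃ C, 0 ≤ C ∧ ∀ (u : I → XS) (v : J → XS), (∀ i, sn m (u i) ≤ L) →
      (∀ j, sn (m - 1) (v j) ≤ L) → ∀ i j, bf m (v j) (Ed i (MvPolynomial.aeval (zj u v) (D.β i j))) ≤
        ε * sn (m + 1) (v j) + C * QQ m u v := by
  have h0 : ∀ q : Fin 3 × J, ∃ C, ∀ z : I ⊕ ((Fin 3 × I) ⊕ J) → XS, (∀ i, sn (m - 2) (z i) ≤ L) →
      sn m (MvPolynomial.aeval z (D.β q.1 q.2)) ≤ C * (1 + ∑ i, sn m (z i)) :=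
    fun q => (hM hS hP _ (D.β q.1 q.2)).1 m (by omega) L
  choose C0 hC0 using h0
  obtain ⟨K, hK0, hK⟩ := unif C0
  obtain ⟨F, hF⟩ := (hP hS).2.2.2.2.2.1 m
  refine ⟨|F| / (4 * ε) * (K * 4), by positivity, fun u v hu hv i j => ?_⟩
  have hQ := QQ_pos m u v
  have h1 : sn m (MvPolynomial.aeval (zj u v) (D.β i j)) ≤ K * 4 * QQ m u v := by
    have h2 := hC0 (i, j) (zj u v) (by
      rintro (i | p | j)
      · exact (sn_mono (by omega) _).trans (hu i)
      · exact (sn_Ed _ _ _).trans ((sn_mono (by omega) _).trans (hu p.2))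
      · exact (sn_mono (by omega) _).trans (hv j))
    refine h2.trans ?_
    have h3 := sum_zj_le m u v
    have h5 : 0 ≤ 1 + ∑ i, sn m (zj u v i) := by
      have : 0 ≤ ∑ i, sn m (zj u v i) := Finset.sum_nonneg fun _ _ => sn_nonneg _ _
      linarith
    calc C0 (i, j) * (1 + ∑ i, sn m (zj u v i))
        ≤ K * (1 + ∑ i, sn m (zj u v i)) := mul_le_mul_of_nonneg_right (hK (i, j)) h5
      _ ≤ K * (4 * QQ m u v) := mul_le_mul_of_nonneg_left h3 hK0
      _ = K * 4 * QQ m u v := by ring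
  have h2 := hF i (v j) (MvPolynomial.aeval (zj u v) (D.β i j))
  have h3 : bf m (v j) (Ed i (MvPolynomial.aeval (zj u v) (D.β i j))) ≤ ε * sn (m + 1) (v j) +
      |F| / (4 * ε) * sn m (MvPolynomial.aeval (zj u v) (D.β i j)) := by
    refine yo (abs_nonneg F) (sn_nonneg _ _) (sn_nonneg _ _) hε (h2.trans ?_)
    exact mul_le_mul_of_nonneg_right (le_abs_self F) (mul_nonneg (sn_nonneg _ _) (sn_nonneg _ _))
  have h4 : |F| / (4 * ε) * sn m (MvPolynomial.aeval (zj u v) (D.β i j)) ≤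
      |F| / (4 * ε) * (K * 4 * QQ m u v) := mul_le_mul_of_nonneg_left h1 (by positivity)
  calc _ ≤ _ := h3
    _ ≤ ε * sn (m + 1) (v j) + |F| / (4 * ε) * (K * 4 * QQ m u v) := by linarith
    _ = _ := by ring

theorem part_w (hS : G_SOB) (hP : G_PRS) (hM : G_MVP) (D : QLD I J) (m : ℕ) (hm : 13 ≤ m) (L : ℝ)
    (ε : ℝ) (hε : 0 < ε) : ∃ C, 0 ≤ C ∧ ∀ (u : I → XS) (v : J → XS), (∀ i, sn m (u i) ≤ L) →
      (∀ j, sn (m - 1) (v j) ≤ L) → ∀ j, bf m (v j) (MvPolynomial.aeval (zj' u v) (D.W j)) ≤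
        ε * sn (m + 1) (v j) + C * QQ m u v := by
  have h0 : ∀ j : J, ∃ C, ∀ z : (I ⊕ ((Fin 3 × I) ⊕ J)) ⊕ (Fin 3 × J) → XS,
      (∀ i, sn (m - 1 - 2) (z i) ≤ L) →
      sn (m - 1) (MvPolynomial.aeval z (D.W j)) ≤ C * (1 + ∑ i, sn (m - 1) (z i)) :=
    fun j => (hM hS hP _ (D.W j)).1 (m - 1) (by omega) L
  choose C0 hC0 using h0
  obtain ⟨K, hK0, hK⟩ := unif C0
  obtain ⟨F, hF⟩ := (hP hS).2.2.2.2.2.2 m (by omega)
  refine ⟨|F| / (4 * ε) * (K * 7), by positivity, fun u v hu hv j => ?_⟩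
  have hQ := QQ_pos m u v
  have h1 : sn (m - 1) (MvPolynomial.aeval (zj' u v) (D.W j)) ≤ K * 7 * QQ m u v := by
    have h2 := hC0 j (zj' u v) (by
      rintro ((i | p | j) | p)
      · exact (sn_mono (by omega) _).trans (hu i)
      · exact (sn_Ed _ _ _).trans ((sn_mono (by omega) _).trans (hu p.2))
      · exact (sn_mono (by omega) _).trans (hv j)
      · exact (sn_Ed _ _ _).trans ((sn_mono (by omega) _).trans (hv p.2)))
    refine h2.trans ?_
    have h3 := sum_zj_le (m - 1) u v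
    have hmm : m - 1 + 1 = m := by omega
    have h6 : QQ (m - 1) u v ≤ QQ m u v := by
      unfold QQ
      rw [hmm]
      have a1 : ∑ i, sn m (u i) ≤ ∑ i, sn (m + 1) (u i) :=
        Finset.sum_le_sum fun i _ => sn_mono (by omega) _
      have a2 : ∑ j, sn (m - 1) (v j) ≤ ∑ j, sn m (v j) :=
        Finset.sum_le_sum fun i _ => sn_mono (by omega) _
      linarith
    have h7 : ∑ q, sn (m - 1) (zj' u v q) = ∑ q, sn (m - 1) (zj u v q) +
        ∑ p : Fin 3 × J, sn (m - 1) (Ed p.1 (v p.2)) := by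
      unfold zj'
      rw [Fintype.sum_sum_type]
      rfl
    have h8 : ∑ p : Fin 3 × J, sn (m - 1) (Ed p.1 (v p.2)) ≤ 3 * ∑ j, sn m (v j) := by
      rw [Fintype.sum_prod_type]
      have h3 : ∀ p : Fin 3, ∑ j, sn (m - 1) (Ed p (v j)) ≤ ∑ j, sn m (v j) := fun p =>
        Finset.sum_le_sum fun j _ => by
          have := sn_Ed (m - 1) p (v j)
          rwa [hmm] at this
      calc ∑ p : Fin 3, ∑ j, sn (m - 1) (Ed p (v j)) ≤ ∑ p : Fin 3, ∑ j, sn m (v j) :=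
            Finset.sum_le_sum fun p _ => h3 p
        _ = 3 * ∑ j, sn m (v j) := by simp
    have h9 : ∑ j, sn m (v j) ≤ QQ m u v := by
      unfold QQ
      have h6 : 0 ≤ ∑ i, sn (m + 1) (u i) := Finset.sum_nonneg fun _ _ => sn_nonneg _ _
      linarith
    have h10 : 1 + ∑ q, sn (m - 1) (zj' u v q) ≤ 7 * QQ m u v := by
      rw [h7]
      linarith
    have h5 : 0 ≤ 1 + ∑ i, sn (m - 1) (zj' u v i) := by
      have : 0 ≤ ∑ i, sn (m - 1) (zj' u v i) := Finset.sum_nonneg fun _ _ => sn_nonneg _ _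
      linarith
    calc C0 j * (1 + ∑ i, sn (m - 1) (zj' u v i))
        ≤ K * (1 + ∑ i, sn (m - 1) (zj' u v i)) := mul_le_mul_of_nonneg_right (hK j) h5
      _ ≤ K * (7 * QQ m u v) := mul_le_mul_of_nonneg_left h10 hK0
      _ = K * 7 * QQ m u v := by ring
  have h2 := hF (v j) (MvPolynomial.aeval (zj' u v) (D.W j))
  have h3 : bf m (v j) (MvPolynomial.aeval (zj' u v) (D.W j)) ≤ ε * sn (m + 1) (v j) +
      |F| / (4 * ε) * sn (m - 1) (MvPolynomial.aeval (zj' u v) (D.W j)) := by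
    refine yo (abs_nonneg F) (sn_nonneg _ _) (sn_nonneg _ _) hε (h2.trans ?_)
    exact mul_le_mul_of_nonneg_right (le_abs_self F) (mul_nonneg (sn_nonneg _ _) (sn_nonneg _ _))
  have h4 : |F| / (4 * ε) * sn (m - 1) (MvPolynomial.aeval (zj' u v) (D.W j)) ≤
      |F| / (4 * ε) * (K * 7 * QQ m u v) := mul_le_mul_of_nonneg_left h1 (by positivity)
  calc _ ≤ _ := h3
    _ ≤ ε * sn (m + 1) (v j) + |F| / (4 * ε) * (K * 7 * QQ m u v) := by linarith
    _ = _ := by ring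

theorem part_m (hS : G_SOB) (hP : G_PRS) (hE : G_ELL) (hM : G_MVP) (D : QLD I J) (u0 : I → XS)
    (lam ρ : ℝ) (hlam : 0 < lam) (hEll : D.Ell u0 lam ρ) (m : ℕ) (hm : 13 ≤ m) (L : ℝ) :
    ∃ C, 0 ≤ C ∧ ∀ (u : I → XS) (v : J → XS), (∀ i, ∀ x ≠ 0, |(u i).1 x - (u0 i).1 x| ≤ ρ) →
      (∀ i, sn m (u i) ≤ L) → ∀ j,
      bf m (v j) (∑ i, Ed i (∑ k, MvPolynomial.aeval u (D.α i k) * Ed k (v j))) ≤
        - (lam / 2) * sn (m + 1) (v j) + C * sn m (v j) := by
  have h0 : ∀ q : Fin 3 × Fin 3, ∃ C, ∀ z : I → XS, (∀ i, sn (m - 2) (z i) ≤ L) →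
      sn m (MvPolynomial.aeval z (D.α q.1 q.2)) ≤ C * (1 + ∑ i, sn m (z i)) :=
    fun q => (hM hS hP _ (D.α q.1 q.2)).1 m (by omega) L
  choose C0 hC0 using h0
  obtain ⟨K, hK0, hK⟩ := unif C0
  obtain ⟨C, hC, h⟩ := hE hS hP m (by omega) lam hlam (K * (1 + ∑ _i : I, L))
  refine ⟨C, hC, fun u v hc hu j => ?_⟩
  refine h (fun i k => MvPolynomial.aeval u (D.α i k)) (v j) (fun i k => ?_) ?_
  · have h2 := hC0 (i, k) u (fun i => (sn_mono (by omega) _).trans (hu i))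
    refine h2.trans ?_
    have h5 : 0 ≤ 1 + ∑ i, sn m (u i) := by
      have : 0 ≤ ∑ i, sn m (u i) := Finset.sum_nonneg fun _ _ => sn_nonneg _ _
      linarith
    have h3 : 1 + ∑ i, sn m (u i) ≤ 1 + ∑ _i : I, L := by
      have := Finset.sum_le_sum fun i (_ : i ∈ Finset.univ) => hu i
      linarith
    calc C0 (i, k) * (1 + ∑ i, sn m (u i))
        ≤ K * (1 + ∑ i, sn m (u i)) := mul_le_mul_of_nonneg_right (hK (i, k)) h5
      _ ≤ _ := mul_le_mul_of_nonneg_left h3 hK0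
  · exact hEll u hc

theorem qf3 : G_QF3 := by
  intro hS hP hE hM I J _ _ D u0 lam ρ hlam hEll m hm L
  obtain ⟨C1, hC1, h1⟩ := part_u hS hP hM D m hm L (lam / (8 * (Fintype.card I + 1)))
    (by positivity)
  obtain ⟨C2, hC2, h2⟩ := part_m hS hP hE hM D u0 lam ρ hlam hEll m hm L
  obtain ⟨C3, hC3, h3⟩ := part_b hS hP hM D m hm L (lam / 16) (by positivity)
  obtain ⟨C4, hC4, h4⟩ := part_w hS hP hM D m hm L (lam / 16) (by positivity)
  refine ⟨Fintype.card I * C1 + C2 + Fintype.card J * (3 * C3 + C4), by positivity,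
    fun y hc hq => ?_⟩
  set u : I → XS := fun i => y (Sum.inl i) with hu
  set v : J → XS := fun j => y (Sum.inr j) with hv
  have hmm : m - 1 + 1 = m := by omega
  have hq' : ∑ i, sn m (u i) + ∑ j, sn (m - 1) (v j) ≤ L := by
    have : qq (m - 1) y = ∑ i, sn m (u i) + ∑ j, sn (m - 1) (v j) := by
      unfold qq
      rw [Fintype.sum_sum_type]
      simp only [kap, Sum.elim_inl, Sum.elim_inr, hmm, add_zero, hu, hv]
    rwa [this] at hq
  have s1 : 0 ≤ ∑ i, sn m (u i) := Finset.sum_nonneg fun _ _ => sn_nonneg _ _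
  have s2 : 0 ≤ ∑ j, sn (m - 1) (v j) := Finset.sum_nonneg fun _ _ => sn_nonneg _ _
  have hub : ∀ i, sn m (u i) ≤ L := fun i => by
    have : sn m (u i) ≤ ∑ i, sn m (u i) :=
      Finset.single_le_sum (f := fun i => sn m (u i)) (fun _ _ => sn_nonneg _ _)
        (Finset.mem_univ i)
    linarith
  have hvb : ∀ j, sn (m - 1) (v j) ≤ L := fun j => by
    have : sn (m - 1) (v j) ≤ ∑ j, sn (m - 1) (v j) :=
      Finset.single_le_sum (f := fun j => sn (m - 1) (v j)) (fun _ _ => sn_nonneg _ _)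
        (Finset.mem_univ j)
    linarith
  have hQ : 1 + qq m y = QQ m u v := by
    unfold qq QQ
    rw [Fintype.sum_sum_type]
    simp only [kap, Sum.elim_inl, Sum.elim_inr, add_zero, hu, hv]
    ring
  rw [hQ]
  have hQ1 := QQ_pos m u v
  set Q := QQ m u v with hQd
  set S := ∑ j, sn (m + 1) (v j) with hSd
  have hS0 : 0 ≤ S := Finset.sum_nonneg fun _ _ => sn_nonneg _ _
  set T := ∑ j, sn m (v j) with hTd
  have hTQ : T ≤ Q := by
    have h6 : 0 ≤ ∑ i, sn (m + 1) (u i) := Finset.sum_nonneg fun _ _ => sn_nonneg _ _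
    rw [hQd]
    unfold QQ
    linarith
  have hbb : bb m y (D.FF y) = ∑ i, bf (m + 1) (u i) (D.FI u v i) +
      ∑ j, bf m (v j) (D.FJ u v j) := by
    unfold bb QLD.FF
    rw [Fintype.sum_sum_type]
    simp only [kap, Sum.elim_inl, Sum.elim_inr, add_zero, hu, hv]
  rw [hbb]
  have p1 : ∑ i, bf (m + 1) (u i) (D.FI u v i) ≤
      Fintype.card I * (lam / (8 * (Fintype.card I + 1)) * S + C1 * Q) := by
    have := Finset.sum_le_sum fun i (_ : i ∈ Finset.univ) => h1 u v hub hvb i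
    refine this.trans ?_
    rw [Finset.sum_const, Finset.card_univ, nsmul_eq_mul]
  have p1' : (Fintype.card I : ℝ) * (lam / (8 * (Fintype.card I + 1)) * S) ≤ lam / 8 * S := by
    have : (Fintype.card I : ℝ) * (lam / (8 * (Fintype.card I + 1))) ≤ lam / 8 := by
      rw [mul_div_assoc', div_le_div_iff₀ (by positivity) (by norm_num)]
      nlinarith
    calc (Fintype.card I : ℝ) * (lam / (8 * (Fintype.card I + 1)) * S) =
          (Fintype.card I : ℝ) * (lam / (8 * (Fintype.card I + 1))) * S := by ring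
      _ ≤ _ := mul_le_mul_of_nonneg_right this hS0
  have p2 : ∀ j, bf m (v j) (D.FJ u v j) ≤ - (lam / 4) * sn (m + 1) (v j) + C2 * sn m (v j) +
      (3 * C3 + C4) * Q := by
    intro j
    have e1 : D.FJ u v j = (∑ i, Ed i (∑ k, MvPolynomial.aeval u (D.α i k) * Ed k (v j))) +
        ∑ i, Ed i (MvPolynomial.aeval (zj u v) (D.β i j)) +
        MvPolynomial.aeval (zj' u v) (D.W j) := by
      unfold QLD.FJ
      rw [← Finset.sum_add_distrib]
      congr 1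
      exact Finset.sum_congr rfl fun i _ => map_add _ _ _
    rw [e1, map_add, map_add, map_sum]
    have a1 := h2 u v hc hub j
    have a2 := Finset.sum_le_sum fun i (_ : i ∈ Finset.univ) => h3 u v hub hvb i j
    have a3 := h4 u v hub hvb j
    rw [Finset.sum_const, Finset.card_univ, Fintype.card_fin, nsmul_eq_mul] at a2
    push_cast at a2
    have a4 := sn_nonneg (m + 1) (v j)
    rw [map_sum] at *
    linarith
  have p3 := Finset.sum_le_sum fun j (_ : j ∈ Finset.univ) => p2 j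
  rw [Finset.sum_add_distrib, Finset.sum_add_distrib, ← Finset.mul_sum, ← Finset.mul_sum,
    Finset.sum_const, Finset.card_univ, nsmul_eq_mul] at p3
  have p4 : C2 * T ≤ C2 * Q := mul_le_mul_of_nonneg_left hTQ hC2
  have p5 : 0 ≤ lam / 8 * S := by positivity
  have p6 : (Fintype.card I : ℝ) * (lam / (8 * (Fintype.card I + 1)) * S + C1 * Q) =
    (Fintype.card I : ℝ) * (lam / (8 * (Fintype.card I + 1)) * S) + Fintype.card I * C1 * Q := by ring
  rw [p6] at p1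
  have p7 : (Fintype.card J : ℝ) * ((3 * C3 + C4) * Q) =
    Fintype.card J * (3 * C3 + C4) * Q := by ring
  rw [p7] at p3
  have p8 : (Fintype.card I * C1 + C2 + Fintype.card J * (3 * C3 + C4)) * Q =
    Fintype.card I * C1 * Q + C2 * Q + Fintype.card J * (3 * C3 + C4) * Q := by ring
  rw [p8]
  linarith

end Pool.Agent.Helper14.RS
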