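import Pool.Agent.Helper14.RS.Abs
import Pool.Agent.Helper14.RS.QF3
import Pool.Agent.Helper8.RS.QF4
import Pool.Agent.Helper51.RS.CMS

/-! # Linear parabolic equations -/

namespace Pool.Agent.Helper14.RS

open Set Filter Topology MeasureTheory Pool.Agent.Helper47.RF Pool.Agent.Helper36.EV
  Pool.Agent.Helper36.RS
open scoped ContDiff

theorem XS_normalize (u : XS) {x : HH} (hx : x ≠ 0) : u.1 (‖x‖⁻¹ • x) = u.1 x :=
  u.2.hom _ _ (by positivity)

theorem normalize_mem {x : HH} (hx : x ≠ 0) : ‖x‖⁻¹ • x ∈ Metric.sphere (0 : HH) 1 := by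
  rw [mem_sphere_zero_iff_norm, norm_smul, norm_inv, norm_norm]
  exact inv_mul_cancel₀ (by simpa using hx)

theorem fam_w_cont {T : ℝ} {a : ℝ → XS} (ha : SmFam (Icc 0 T) (fun t => (a t).1))
    (w : List (Fin 3)) :
    ContinuousOn (fun p : ℝ × HH => (Wd w (a p.1)).1 p.2)
      (Icc 0 T ×ˢ Metric.sphere (0 : HH) 1) := by
  have h1 : (fun p : ℝ × HH => (Wd w (a p.1)).1 p.2) =
      fun p : ℝ × HH => Ew w (a p.1).1 p.2 := by
    funext p
    rw [Wd_val]
  rw [h1]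
  refine (ha.cont w).mono (prod_mono le_rfl fun x hx => ?_)
  rw [mem_sphere_zero_iff_norm] at hx
  intro h0
  rw [mem_singleton_iff] at h0
  rw [h0, norm_zero] at hx
  exact zero_ne_one hx

theorem compactK (T : ℝ) : IsCompact (Icc 0 T ×ˢ Metric.sphere (0 : HH) 1) :=
  isCompact_Icc.prod (isCompact_sphere _ _)

theorem fam_bd {T : ℝ} {a : ℝ → XS} (ha : SmFam (Icc 0 T) (fun t => (a t).1)) (m : ℕ) :
    ∃ L, 0 ≤ L ∧ ∀ t ∈ Icc 0 T, sn m (a t) ≤ L := by
  have h1 : ∀ w : List (Fin 3), ∃ c, ∀ t ∈ Icc 0 T, ip (Wd w (a t)) (Wd w (a t)) ≤ c := by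
    intro w
    obtain ⟨C, hC⟩ := (compactK T).exists_bound_of_continuousOn (fam_w_cont ha w)
    refine ⟨_, fun t ht => Pool.Agent.Helper51.RS.ip_le _ C fun x hx => ?_⟩
    have h2 := hC (t, ‖x‖⁻¹ • x) ⟨ht, normalize_mem hx⟩
    rw [Real.norm_eq_abs] at h2
    change |(Wd w (a t)).1 (‖x‖⁻¹ • x)| ≤ C at h2
    rwa [XS_normalize _ hx] at h2
  choose c hc using h1
  refine ⟨∑ w ∈ Wle m, |c w|, Finset.sum_nonneg fun _ _ => abs_nonneg _, fun t ht => ?_⟩
  rw [sn_eq]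
  exact Finset.sum_le_sum fun w _ => (hc w t ht).trans (le_abs_self _)

theorem fam_lim {T : ℝ} {a : ℝ → XS} (ha : SmFam (Icc 0 T) (fun t => (a t).1)) (m : ℕ)
    {t : ℕ → ℝ} {t' : ℝ} (ht : ∀ n, t n ∈ Icc 0 T) (ht' : t' ∈ Icc 0 T)
    (hl : Tendsto t atTop (𝓝 t')) : Tendsto (fun n => sn m (a (t n) - a t')) atTop (𝓝 0) := by
  have h1 : ∀ w : List (Fin 3), Tendsto (fun n => ip (Wd w (a (t n) - a t'))
      (Wd w (a (t n) - a t'))) atTop (𝓝 0) := by
    intro w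
    have hu := (compactK T).uniformContinuousOn_of_continuous (fam_w_cont ha w)
    rw [Metric.uniformContinuousOn_iff] at hu
    set V := volume.real (Metric.ball (0 : HH) 1) with hV
    have hV0 : 0 ≤ V := measureReal_nonneg
    rw [Metric.tendsto_atTop]
    intro ε hε
    set e := Real.sqrt (ε / (4 * (V + 1))) with he
    have hepos : 0 < e := Real.sqrt_pos.2 (by positivity)
    have he2 : e ^ 2 = ε / (4 * (V + 1)) := Real.sq_sqrt (by positivity)
    obtain ⟨δ, hδ, h⟩ := hu e hepos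
    rw [Metric.tendsto_atTop] at hl
    obtain ⟨N, hN⟩ := hl δ hδ
    refine ⟨N, fun n hn => ?_⟩
    rw [Real.dist_eq, sub_zero, abs_of_nonneg (ip_nonneg _)]
    have h2 := Pool.Agent.Helper51.RS.ip_le (Wd w (a (t n) - a t')) e fun x hx => by
      have h3 := h (t n, ‖x‖⁻¹ • x) ⟨ht n, normalize_mem hx⟩ (t', ‖x‖⁻¹ • x)
        ⟨ht', normalize_mem hx⟩ (by
          rw [Prod.dist_eq, dist_self, max_eq_left dist_nonneg]
          exact hN n hn)
      rw [Real.dist_eq] at h3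
      change |(Wd w (a (t n))).1 (‖x‖⁻¹ • x) - (Wd w (a t')).1 (‖x‖⁻¹ • x)| < e at h3
      rw [XS_normalize _ hx, XS_normalize _ hx] at h3
      rw [map_sub]
      exact h3.le
    refine lt_of_le_of_lt h2 ?_
    rw [he2, ← hV]
    have h5 : 4 * (V * (ε / (4 * (V + 1)))) = ε * (V / (V + 1)) := by
      field_simp
    rw [h5]
    have h6 : V / (V + 1) < 1 := by
      rw [div_lt_one (by positivity)]
      linarith
    nlinarith
  have h2 : Tendsto (fun n => ∑ w ∈ Wle m, ip (Wd w (a (t n) - a t'))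
      (Wd w (a (t n) - a t'))) atTop (𝓝 (∑ _w ∈ Wle m, 0)) :=
    tendsto_finsetSum _ fun w _ => h1 w
  rw [Finset.sum_const_zero] at h2
  refine h2.congr fun n => ?_
  rw [sn_eq]

/-- the right side with frozen coefficients -/
noncomputable def FL (a : Fin 3 → Fin 3 → XS) (b : Fin 3 → XS) (u : XS) : XS :=
  ∑ i, ∑ k, a i k * Ed i (Ed k u) + ∑ i, b i * Ed i u

theorem FL_sub (a : Fin 3 → Fin 3 → XS) (b : Fin 3 → XS) (u v : XS) :
    FL a b u - FL a b v = FL a b (u - v) := by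
  unfold FL
  simp only [Fin.sum_univ_three, map_sub]
  ring

theorem FL_sub' (a a' : Fin 3 → Fin 3 → XS) (b b' : Fin 3 → XS) (u : XS) :
    FL a b u - FL a' b' u = FL (fun i k => a i k - a' i k) (fun i => b i - b' i) u := by
  unfold FL
  simp only [Fin.sum_univ_three]
  ring

theorem FL_div (a : Fin 3 → Fin 3 → XS) (b : Fin 3 → XS) (u : XS) :
    FL a b u = ∑ i, Ed i (∑ k, a i k * Ed k u) +
      ∑ k, (b k - ∑ i, Ed i (a i k)) * Ed k u := by
  unfold FL
  simp only [Fin.sum_univ_three, map_add, Derivation.leibniz, smul_eq_mul]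
  ring

theorem sn_FL_le (hS : G_SOB) (hP : G_PRS) (m : ℕ) : ∃ C, 0 ≤ C ∧
    ∀ (a : Fin 3 → Fin 3 → XS) (b : Fin 3 → XS) (u : XS),
      sn m (FL a b u) ≤ C * ((∑ i, ∑ k, sn (m + 4) (a i k) + ∑ i, sn (m + 4) (b i)) *
        sn (m + 2) u) := by
  obtain ⟨C, hC⟩ := (hP hS).2.1 m
  refine ⟨32 * |C|, by positivity, fun a b u => ?_⟩
  have h1 : ∀ i k, sn m (a i k * Ed i (Ed k u)) ≤ |C| * (sn (m + 4) (a i k) * sn (m + 2) u) := by
    intro i k
    have h2 : sn m (Ed i (Ed k u)) ≤ sn (m + 2) u := (sn_Ed _ _ _).trans (sn_Ed _ _ _)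
    calc _ ≤ _ := hC _ _
      _ ≤ |C| * (sn (m + 4) (a i k) * sn m (Ed i (Ed k u))) :=
        mul_le_mul_of_nonneg_right (le_abs_self C) (mul_nonneg (sn_nonneg _ _) (sn_nonneg _ _))
      _ ≤ _ := mul_le_mul_of_nonneg_left
        (mul_le_mul_of_nonneg_left h2 (sn_nonneg _ _)) (abs_nonneg C)
  have h2 : ∀ i, sn m (b i * Ed i u) ≤ |C| * (sn (m + 4) (b i) * sn (m + 2) u) := by
    intro i
    have h2 : sn m (Ed i u) ≤ sn (m + 2) u := (sn_Ed _ _ _).trans (sn_mono (by omega) _)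
    calc _ ≤ _ := hC _ _
      _ ≤ |C| * (sn (m + 4) (b i) * sn m (Ed i u)) :=
        mul_le_mul_of_nonneg_right (le_abs_self C) (mul_nonneg (sn_nonneg _ _) (sn_nonneg _ _))
      _ ≤ _ := mul_le_mul_of_nonneg_left
        (mul_le_mul_of_nonneg_left h2 (sn_nonneg _ _)) (abs_nonneg C)
  have h3 : sn m (FL a b u) ≤ 32 * (∑ i, ∑ k, sn m (a i k * Ed i (Ed k u)) +
      ∑ i, sn m (b i * Ed i u)) := by
    unfold FL
    refine (sn_add_le m _ _).trans ?_
    have h4 := Pool.Agent.Helper8.RS.sn_sum3 m (fun i => ∑ k, a i k * Ed i (Ed k u))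
    have h5 : ∑ i, sn m (∑ k, a i k * Ed i (Ed k u)) ≤
        ∑ i, 4 * ∑ k, sn m (a i k * Ed i (Ed k u)) :=
      Finset.sum_le_sum fun i _ => Pool.Agent.Helper8.RS.sn_sum3 m _
    rw [← Finset.mul_sum] at h5
    have h6 := Pool.Agent.Helper8.RS.sn_sum3 m (fun i => b i * Ed i u)
    have h7 : 0 ≤ ∑ i, sn m (b i * Ed i u) := Finset.sum_nonneg fun _ _ => sn_nonneg _ _
    linarith
  refine h3.trans ?_
  have h4 : ∑ i, ∑ k, sn m (a i k * Ed i (Ed k u)) ≤
      ∑ i, ∑ k, |C| * (sn (m + 4) (a i k) * sn (m + 2) u) :=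
    Finset.sum_le_sum fun i _ => Finset.sum_le_sum fun k _ => h1 i k
  have h5 : ∑ i, sn m (b i * Ed i u) ≤ ∑ i, |C| * (sn (m + 4) (b i) * sn (m + 2) u) :=
    Finset.sum_le_sum fun i _ => h2 i
  have h6 : ∑ i, ∑ k, |C| * (sn (m + 4) (a i k) * sn (m + 2) u) +
      ∑ i, |C| * (sn (m + 4) (b i) * sn (m + 2) u) =
      |C| * ((∑ i, ∑ k, sn (m + 4) (a i k) + ∑ i, sn (m + 4) (b i)) * sn (m + 2) u) := by
    simp only [Fin.sum_univ_three]
    ring
  calc _ ≤ 32 * (∑ i, ∑ k, |C| * (sn (m + 4) (a i k) * sn (m + 2) u) +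
      ∑ i, |C| * (sn (m + 4) (b i) * sn (m + 2) u)) := by linarith
    _ = _ := by rw [h6]; ring

/-- coefficients bounded in all orders on the time interval -/
theorem coef_bd {T : ℝ} {a : Fin 3 → Fin 3 → ℝ → XS} {b : Fin 3 → ℝ → XS}
    (ha : ∀ i k, SmFam (Icc 0 T) (fun t => (a i k t).1))
    (hb : ∀ i, SmFam (Icc 0 T) (fun t => (b i t).1)) (m : ℕ) : ∃ L, 0 ≤ L ∧ ∀ t ∈ Icc 0 T,
      (∀ i k, sn m (a i k t) ≤ L) ∧ (∀ i, sn m (b i t) ≤ L) := by
  have h1 : ∀ q : Fin 3 × Fin 3, ∃ L, 0 ≤ L ∧ ∀ t ∈ Icc 0 T, sn m (a q.1 q.2 t) ≤ L :=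
    fun q => fam_bd (ha q.1 q.2) m
  have h2 : ∀ q : Fin 3, ∃ L, 0 ≤ L ∧ ∀ t ∈ Icc 0 T, sn m (b q t) ≤ L :=
    fun q => fam_bd (hb q) m
  choose A hA0 hA using h1
  choose B hB0 hB using h2
  obtain ⟨KA, hKA0, hKA⟩ := unif A
  obtain ⟨KB, hKB0, hKB⟩ := unif B
  refine ⟨KA + KB, by positivity, fun t ht => ⟨fun i k => ?_, fun i => ?_⟩⟩
  · linarith [hA (i, k) t ht, hKA (i, k)]
  · linarith [hB i t ht, hKB i]

/-- the first-order coefficient in divergence form -/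
noncomputable def cc (a : Fin 3 → Fin 3 → XS) (b : Fin 3 → XS) (k : Fin 3) : XS :=
  b k - ∑ i, Ed i (a i k)

theorem cc_bd {a : Fin 3 → Fin 3 → XS} {b : Fin 3 → XS} {m : ℕ} {L : ℝ} 
    (ha : ∀ i k, sn (m + 1) (a i k) ≤ L) (hb : ∀ i, sn (m + 1) (b i) ≤ L) (k : Fin 3) :
    sn m (cc a b k) ≤ 32 * L := by
  unfold cc
  rw [sub_eq_add_neg]
  refine (sn_add_le m _ _).trans ?_
  rw [sn_neg]
  have h1 := Pool.Agent.Helper8.RS.sn_sum3 m (fun i => Ed i (a i k))
  have h2 : ∑ i, sn m (Ed i (a i k)) ≤ ∑ _i : Fin 3, L :=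
    Finset.sum_le_sum fun i _ => (sn_Ed _ _ _).trans (ha i k)
  simp only [Finset.sum_const, Finset.card_univ, Fintype.card_fin, nsmul_eq_mul,
    Nat.cast_ofNat] at h2
  have h3 := (sn_mono (by omega : m ≤ m + 1) (b k)).trans (hb k)
  have h4 := (sn_nonneg _ _).trans (hb k)
  linarith

theorem energy (hS : G_SOB) (hP : G_PRS) (hE : ∀ m ≥ 12, ∀ lam > 0, ∀ L, ∃ C, 0 ≤ C ∧
    ∀ (a : Fin 3 → Fin 3 → XS) (v : XS), (∀ i k, sn m (a i k) ≤ L) →
      (∀ x ≠ 0, ∀ ξ : Fin 3 → ℝ, lam * ∑ i, ξ i ^ 2 ≤ ∑ i, ∑ k, (a i k).1 x * ξ i * ξ k) →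
      bf m v (∑ i, Ed i (∑ k, a i k * Ed k v)) ≤ - (lam / 2) * sn (m + 1) v + C * sn m v)
    (m : ℕ) (hm : 12 ≤ m) (lam : ℝ) (hlam : 0 < lam) (L : ℝ) (hL : 0 ≤ L) : ∃ C, 0 ≤ C ∧
    ∀ (a : Fin 3 → Fin 3 → XS) (b : Fin 3 → XS) (v : XS), (∀ i k, sn (m + 1) (a i k) ≤ L) →
      (∀ i, sn (m + 1) (b i) ≤ L) →
      (∀ x ≠ 0, ∀ ξ : Fin 3 → ℝ, lam * ∑ i, ξ i ^ 2 ≤ ∑ i, ∑ k, (a i k).1 x * ξ i * ξ k) →
      bf m v (FL a b v) ≤ C * sn m v := by
  obtain ⟨C, hC0, hC⟩ := hE m hm lam hlam L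
  obtain ⟨G, hG⟩ := (hP hS).2.2.2.2.2.2 m (by omega)
  obtain ⟨H, hH⟩ := (hP hS).2.2.2.2.1 (m - 1) (by omega)
  set K := |H| * (32 * L) with hK
  have hK0 : 0 ≤ K := by positivity
  refine ⟨C + 3 * (|G| / (4 * (lam / 6)) * K), by positivity, fun a b v ha hb hell => ?_⟩
  rw [FL_div, map_add]
  have h1 := hC a v (fun i k => (sn_mono (by omega) _).trans (ha i k)) hell
  have h2 : ∀ k, bf m v (cc a b k * Ed k v) ≤ lam / 6 * sn (m + 1) v +
      |G| / (4 * (lam / 6)) * (K * sn m v) := by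
    intro k
    have h3 : sn (m - 1) (cc a b k * Ed k v) ≤ K * sn m v := by
      have h4 := cc_bd ha hb k
      have h5 : sn (m - 1) (Ed k v) ≤ sn m v := by
        have := sn_Ed (m - 1) k v
        rwa [show m - 1 + 1 = m by omega] at this
      calc _ ≤ _ := hH _ _
        _ ≤ |H| * (sn (m - 1) (cc a b k) * sn (m - 1) (Ed k v)) :=
          mul_le_mul_of_nonneg_right (le_abs_self H)
            (mul_nonneg (sn_nonneg _ _) (sn_nonneg _ _))
        _ ≤ |H| * (32 * L * sn m v) := mul_le_mul_of_nonneg_left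
          (mul_le_mul ((sn_mono (by omega) _).trans h4) h5 (sn_nonneg _ _) (by positivity))
          (abs_nonneg H)
        _ = _ := by rw [hK]; ring
    have h4 := hG v (cc a b k * Ed k v)
    have h5 : bf m v (cc a b k * Ed k v) ≤ lam / 6 * sn (m + 1) v +
        |G| / (4 * (lam / 6)) * sn (m - 1) (cc a b k * Ed k v) := by
      refine yo (abs_nonneg G) (sn_nonneg _ _) (sn_nonneg _ _) (by positivity) (h4.trans ?_)
      exact mul_le_mul_of_nonneg_right (le_abs_self G) (mul_nonneg (sn_nonneg _ _) (sn_nonneg _ _))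
    have h6 : |G| / (4 * (lam / 6)) * sn (m - 1) (cc a b k * Ed k v) ≤
        |G| / (4 * (lam / 6)) * (K * sn m v) := mul_le_mul_of_nonneg_left h3 (by positivity)
    linarith
  have h3 : bf m v (∑ k, cc a b k * Ed k v) ≤ lam / 2 * sn (m + 1) v +
      3 * (|G| / (4 * (lam / 6)) * (K * sn m v)) := by
    rw [map_sum, Fin.sum_univ_three]
    have a0 := h2 0
    have a1 := h2 1
    have a2 := h2 2
    linarith
  have h4 : bf m v (∑ k, (b k - ∑ i, Ed i (a i k)) * Ed k v) =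
      bf m v (∑ k, cc a b k * Ed k v) := rfl
  rw [h4]
  have h5 : (C + 3 * (|G| / (4 * (lam / 6)) * K)) * sn m v =
      C * sn m v + 3 * (|G| / (4 * (lam / 6)) * (K * sn m v)) := by ring
  rw [h5]
  linarith

theorem energy0 (hS : G_SOB) (hP : G_PRS) (lam : ℝ) (hlam : 0 < lam) (L : ℝ) (hL : 0 ≤ L) :
    ∃ C, 0 ≤ C ∧ ∀ (a : Fin 3 → Fin 3 → XS) (b : Fin 3 → XS) (v : XS),
      (∀ i k, sn 5 (a i k) ≤ L) → (∀ i, sn 5 (b i) ≤ L) →
      (∀ x ≠ 0, ∀ ξ : Fin 3 → ℝ, lam * ∑ i, ξ i ^ 2 ≤ ∑ i, ∑ k, (a i k).1 x * ξ i * ξ k) →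
      bf 0 v (FL a b v) ≤ C * sn 0 v := by
  obtain ⟨H, hH⟩ := (hP hS).2.1 0
  set K := 4 * (|H| * (32 * L)) with hK
  have hK0 : 0 ≤ K := by positivity
  set ε := 3 / 4 * lam / (K + 1) with hε
  have hεpos : 0 < ε := by positivity
  have hεK : ε * K ≤ 3 / 4 * lam := by
    rw [hε, div_mul_eq_mul_div, div_le_iff₀ (by positivity)]
    nlinarith
  refine ⟨(4 * ε)⁻¹, by positivity, fun a b v ha hb hell => ?_⟩
  have h1 := Pool.Agent.Helper8.RS.comp_le hlam hεpos a v hell (fun _ => 0)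
    (∑ k, cc a b k * Ed k v)
  have h2 : FL a b v = ∑ i, Ed i ((∑ k, a i k * Ed k v) + (fun _ => (0 : XS)) i) +
      ∑ k, cc a b k * Ed k v := by
    rw [FL_div]
    simp only [add_zero]
    rfl
  rw [← h2] at h1
  have h3 : sn 0 (∑ k, cc a b k * Ed k v) ≤ K * ∑ i, sn 0 (Ed i v) := by
    refine (Pool.Agent.Helper8.RS.sn_sum3 0 _).trans ?_
    have h4 : ∑ k, sn 0 (cc a b k * Ed k v) ≤ ∑ k, |H| * (32 * L) * sn 0 (Ed k v) := by
      refine Finset.sum_le_sum fun k _ => ?_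
      have h5 := cc_bd (m := 4) ha hb k
      calc _ ≤ _ := hH _ _
        _ ≤ |H| * (sn (0 + 4) (cc a b k) * sn 0 (Ed k v)) :=
          mul_le_mul_of_nonneg_right (le_abs_self H)
            (mul_nonneg (sn_nonneg _ _) (sn_nonneg _ _))
        _ ≤ |H| * (32 * L * sn 0 (Ed k v)) := mul_le_mul_of_nonneg_left
          (mul_le_mul_of_nonneg_right h5 (sn_nonneg _ _)) (abs_nonneg H)
        _ = _ := by ring
    rw [← Finset.mul_sum] at h4
    calc _ ≤ 4 * (|H| * (32 * L) * ∑ k, sn 0 (Ed k v)) := by linarith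
      _ = _ := by rw [hK]; ring
  have h4 : ∑ i : Fin 3, sn 0 ((fun _ => (0 : XS)) i) = 0 := by
    refine Finset.sum_eq_zero fun i _ => ?_
    simp [sn]
  rw [h4, mul_zero, add_zero] at h1
  have h5 : 0 ≤ ∑ i, sn 0 (Ed i v) := Finset.sum_nonneg fun _ _ => sn_nonneg _ _
  have h6 : ε * sn 0 (∑ k, cc a b k * Ed k v) ≤ 3 / 4 * lam * ∑ i, sn 0 (Ed i v) := by
    calc _ ≤ ε * (K * ∑ i, sn 0 (Ed i v)) := mul_le_mul_of_nonneg_left h3 hεpos.le
      _ = ε * K * ∑ i, sn 0 (Ed i v) := by ring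
      _ ≤ _ := mul_le_mul_of_nonneg_right hεK h5
  linarith

theorem las : G_LAS := by
  intro hmain hS hP hE hsc T lam a b f hT hlam ha hb hell
  obtain ⟨S, hSB⟩ := hsc Unit (fun _ => 0)
  have hB : ∀ m (y z : Unit → XS), S.B m y z = bf m (y ()) (z ()) := by
    intro m y z
    rw [hSB]
    simp
  have hq : ∀ m (y : Unit → XS), S.q m y = sn m (y ()) := fun m y => hB m y y
  set A : ℝ → Fin 3 → Fin 3 → XS := fun t i k => a i k t with hA
  set Bc : ℝ → Fin 3 → XS := fun t i => b i t with hBc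
  set F : ℝ → (Unit → XS) → Unit → XS := fun t y _ => FL (A t) (Bc t) (y ()) with hF
  set y0 : Unit → XS := fun _ => f with hy0
  -- bounds of the right side
  have hbd : ∀ m, ∃ C, 0 ≤ C ∧ ∀ t ∈ Icc 0 T, ∀ u : XS,
      sn m (FL (A t) (Bc t) u) ≤ C * sn (m + 2) u := by
    intro m
    obtain ⟨C, hC0, hC⟩ := sn_FL_le hS hP m
    obtain ⟨L, hL0, hL⟩ := coef_bd ha hb (m + 4)
    refine ⟨C * (12 * L), by positivity, fun t ht u => ?_⟩
    refine (hC (A t) (Bc t) u).trans ?_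
    have h1 : ∑ i, ∑ k, sn (m + 4) (A t i k) ≤ ∑ _i : Fin 3, ∑ _k : Fin 3, L :=
      Finset.sum_le_sum fun i _ => Finset.sum_le_sum fun k _ => (hL t ht).1 i k
    have h2 : ∑ i, sn (m + 4) (Bc t i) ≤ ∑ _i : Fin 3, L :=
      Finset.sum_le_sum fun i _ => (hL t ht).2 i
    simp only [Finset.sum_const, Finset.card_univ, Fintype.card_fin, nsmul_eq_mul,
      Nat.cast_ofNat] at h1 h2
    rw [mul_assoc]
    refine mul_le_mul_of_nonneg_left (mul_le_mul_of_nonneg_right ?_ (sn_nonneg _ _)) hC0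
    linarith
  -- energy estimates
  have hen : ∀ m, 12 ≤ m → ∃ C, 0 ≤ C ∧ ∀ t ∈ Icc 0 T, ∀ u : XS,
      bf m u (FL (A t) (Bc t) u) ≤ C * sn m u := by
    intro m hm
    obtain ⟨L, hL0, hL⟩ := coef_bd ha hb (m + 1)
    obtain ⟨C, hC0, hC⟩ := energy hS hP hE m hm lam hlam L hL0
    exact ⟨C, hC0, fun t ht u => hC (A t) (Bc t) u (hL t ht).1 (hL t ht).2 (hell t ht)⟩
  obtain ⟨L5, hL50, hL5⟩ := coef_bd ha hb 5
  obtain ⟨C0, hC00, hC0⟩ := energy0 hS hP lam hlam L5 hL50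
  obtain ⟨C1, hC10, hC1⟩ := hen 12 le_rfl
  obtain ⟨D, hD0, hD⟩ := hbd 0
  set R : ℝ := Real.exp (2 * C1 * T) * (1 + sn 12 f) with hR
  have hR0 : 0 ≤ R := mul_nonneg (Real.exp_pos _).le (by linarith [sn_nonneg 12 f])
  let E : Evo S :=
    { F := F
      T := T
      τ := T
      u0 := y0
      s := 12
      m0 := 0
      m4 := 0
      R := R
      r := D * R * T ^ 2 + 1
      C1 := C1
      C2 := D * R
      hτ := hT
      hτT := le_rfl
      hC1 := hC10
      hr := add_pos_of_nonneg_of_pos (mul_nonneg (mul_nonneg hD0 hR0) (sq_nonneg T)) one_pos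
      F0 := by
        intro t x t' x' ht ht' hl hx m
        have h1 : ∀ n, F (t n) (x n) - F t' x' =
            (fun _ => FL (A (t n)) (Bc (t n)) (x n () - x' ())) +
            (fun _ => FL (fun i k => A (t n) i k - A t' i k) (fun i => Bc (t n) i - Bc t' i)
              (x' ())) := by
          intro n
          funext q
          change FL (A (t n)) (Bc (t n)) (x n ()) - FL (A t') (Bc t') (x' ()) =
            FL (A (t n)) (Bc (t n)) (x n () - x' ()) + FL (fun i k => A (t n) i k - A t' i k)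
              (fun i => Bc (t n) i - Bc t' i) (x' ())
          rw [← FL_sub, ← FL_sub']
          abel
        obtain ⟨G, hG0, hG⟩ := sn_FL_le hS hP m
        obtain ⟨H, hH0, hH⟩ := hbd m
        have h2 : Tendsto (fun n => 2 * (H * S.q (m + 2) (x n - x') +
            G * ((∑ i, ∑ k, sn (m + 4) (a i k (t n) - a i k t') +
              ∑ i, sn (m + 4) (b i (t n) - b i t')) * sn (m + 2) (x' ())))) atTop
            (𝓝 (2 * (H * 0 + G * ((∑ _i : Fin 3, ∑ _k : Fin 3, 0 + ∑ _i : Fin 3, 0) *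
              sn (m + 2) (x' ()))))) := by
          refine Tendsto.const_mul 2 (Tendsto.add ((hx (m + 2)).const_mul H)
            (Tendsto.const_mul G (Tendsto.mul_const _ (Tendsto.add ?_ ?_))))
          · exact tendsto_finsetSum _ fun i _ => tendsto_finsetSum _ fun k _ =>
              fam_lim (ha i k) (m + 4) ht ht' hl
          · exact tendsto_finsetSum _ fun i _ => fam_lim (hb i) (m + 4) ht ht' hl
        have h3 : (2 * (H * 0 + G * ((∑ _i : Fin 3, ∑ _k : Fin 3, (0 : ℝ) + ∑ _i : Fin 3, 0) *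
              sn (m + 2) (x' ())))) = 0 := by simp
        rw [h3] at h2
        refine squeeze_zero (fun n => S.q_nonneg _ _) (fun n => ?_) h2
        rw [h1]
        refine (q_add_le S m _ _).trans ?_
        have h4 : S.q m (fun _ => FL (A (t n)) (Bc (t n)) (x n () - x' ())) ≤
            H * S.q (m + 2) (x n - x') := by
          rw [hq, hq]
          exact hH (t n) (ht n) (x n () - x' ())
        have h5 : S.q m (fun _ => FL (fun i k => A (t n) i k - A t' i k)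
            (fun i => Bc (t n) i - Bc t' i) (x' ())) ≤
            G * ((∑ i, ∑ k, sn (m + 4) (a i k (t n) - a i k t') +
              ∑ i, sn (m + 4) (b i (t n) - b i t')) * sn (m + 2) (x' ())) := by
          rw [hq]
          exact hG (fun i k => A (t n) i k - A t' i k) (fun i => Bc (t n) i - Bc t' i) (x' ())
        linarith
      F1 := by
        intro m
        obtain ⟨C, hC0, hC⟩ := hbd m
        refine ⟨m + 2, fun L => ⟨C * L, fun t ht x hx => ?_⟩⟩
        rw [hq] at hx ⊢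
        exact (hC t ht (x ())).trans (mul_le_mul_of_nonneg_left hx hC0)
      F2 := by
        refine ⟨2, fun L => ⟨D, fun t ht x y _ _ => ?_⟩⟩
        rw [hq, hq]
        change sn 0 (FL (A t) (Bc t) (x ()) - FL (A t) (Bc t) (y ())) ≤ D * sn 2 (x () - y ())
        rw [FL_sub]
        exact hD t ht _
      F3s := by
        intro t ht x _ _
        rw [hB, hq]
        have h1 := hC1 t ht (x ())
        have h2 : C1 * sn 12 (x ()) ≤ C1 * (1 + sn 12 (x ())) :=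
          mul_le_mul_of_nonneg_left (by linarith) hC10
        have h3 : F t x () = FL (A t) (Bc t) (x ()) := rfl
        rw [h3]
        exact h1.trans h2
      F3 := by
        intro m hm L
        obtain ⟨C, hC0, hC⟩ := hen m (by omega)
        refine ⟨C, fun t ht x _ _ _ => ?_⟩
        rw [hB, hq]
        refine (hC t ht (x ())).trans (mul_le_mul_of_nonneg_left ?_ hC0)
        linarith [sn_nonneg m (x ())]
      F4 := by
        intro L
        refine ⟨C0, fun t ht x y _ _ _ _ _ _ => ?_⟩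
        rw [hB, hq]
        change bf 0 (x () - y ()) (FL (A t) (Bc t) (x ()) - FL (A t) (Bc t) (y ())) ≤
          C0 * sn 0 (x () - y ())
        rw [FL_sub]
        exact hC0 (A t) (Bc t) _ (hL5 t ht).1 (hL5 t ht).2 (hell t ht)
      F5 := by
        intro t ht x hx _
        rw [hq] at hx ⊢
        exact (hD t ht (x ())).trans (mul_le_mul_of_nonneg_left
          ((sn_mono (by omega) _).trans hx) hD0)
      small := by
        rw [hq]
        change Real.exp (2 * C1 * T) * (1 + sn 12 f) < 1 + R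
        rw [← hR]
        linarith
      small' := by linarith }
  obtain ⟨y, hy⟩ := hmain (Unit → XS) (Unit → LL) S E
  have hinit : y 0 = y0 := hy.init
  refine ⟨fun t => y t (), ?_, ?_⟩
  · change y 0 () = f
    rw [hinit]
  · refine ⟨fun m => ?_, fun m t ht δ hδ => ?_, fun m t ht δ hδ => ?_⟩
    · obtain ⟨L, hL⟩ := hy.bdd m
      refine ⟨L, fun t ht => ?_⟩
      have h1 := hL t ht
      rwa [hq] at h1
    · obtain ⟨η, hη, h⟩ := sol_F_cont E hy m (t := t) ht (δ := δ) hδ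
      refine ⟨η, hη, fun s hs hst => ?_⟩
      have h1 := h s hs hst
      rwa [hq] at h1
    · obtain ⟨η, hη, h⟩ := hy.der m t ht δ hδ
      refine ⟨η, hη, fun s hs hst => ?_⟩
      have h1 := h s hs hst
      rwa [hq] at h1

end Pool.Agent.Helper14.RS
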