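import Pool.Agent.Helper14.RS.Abs
import Pool.Agent.Helper14.RS.QF3

/-! # Assembly of the local existence theorem for mixed systems -/

namespace Pool.Agent.Helper14.RS

open Set Filter Topology MeasureTheory Pool.Agent.Helper47.RF Pool.Agent.Helper36.EV
  Pool.Agent.Helper36.RS
open scoped ContDiff

variable {I J : Type} [Fintype I] [Fintype J]

theorem qq_nonneg (m : ℕ) (y : I ⊕ J → XS) : 0 ≤ qq m y :=
  Finset.sum_nonneg fun _ _ => sn_nonneg _ _

theorem qq_mono {m k : ℕ} (h : m ≤ k) (y : I ⊕ J → XS) : qq m y ≤ qq k y :=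
  Finset.sum_le_sum fun _ _ => sn_mono (by omega) _

theorem sn_le_qq (m : ℕ) (y : I ⊕ J → XS) (i : I ⊕ J) : sn (m + kap i) (y i) ≤ qq m y :=
  Finset.single_le_sum (f := fun i => sn (m + kap i) (y i)) (fun _ _ => sn_nonneg _ _)
    (Finset.mem_univ i)

theorem sn_inl_le (m : ℕ) (y : I ⊕ J → XS) (i : I) : sn (m + 1) (y (Sum.inl i)) ≤ qq m y :=
  sn_le_qq m y (Sum.inl i)

theorem sn_inr_le (m : ℕ) (y : I ⊕ J → XS) (j : J) : sn m (y (Sum.inr j)) ≤ qq m y :=
  sn_le_qq m y (Sum.inr j)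

theorem sn_sum3_le (m : ℕ) (f : Fin 3 → XS) (K : ℝ) (h : ∀ i, sn m (f i) ≤ K) :
    sn m (∑ i, f i) ≤ 10 * K := by
  rw [Fin.sum_univ_three]
  have h1 := sn_add_le m (f 0 + f 1) (f 2)
  have h2 := sn_add_le m (f 0) (f 1)
  have h3 := h 0
  have h4 := h 1
  have h5 := h 2
  linarith

/-- bound of order `12` of a polynomial expression -/
theorem mv12 (hS : G_SOB) (hP : G_PRS) (hM : G_MVP) {Z : Type} [Fintype Z]
    (p : MvPolynomial Z ℝ) (L : ℝ) : ∃ C, 0 ≤ C ∧ ∀ z : Z → XS, (∀ i, sn 12 (z i) ≤ L) →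
      sn 12 (MvPolynomial.aeval z p) ≤ C := by
  obtain ⟨C, hC⟩ := (hM hS hP Z p).1 12 le_rfl L
  refine ⟨|C| * (1 + ∑ _i : Z, |L|), by positivity, fun z hz => ?_⟩
  refine (hC z fun i => (sn_mono (by omega) _).trans (hz i)).trans ?_
  have h1 : ∑ i, sn 12 (z i) ≤ ∑ _i : Z, |L| :=
    Finset.sum_le_sum fun i _ => (hz i).trans (le_abs_self L)
  have h2 : 0 ≤ ∑ i, sn 12 (z i) := Finset.sum_nonneg fun _ _ => sn_nonneg _ _
  calc C * (1 + ∑ i, sn 12 (z i)) ≤ |C| * (1 + ∑ i, sn 12 (z i)) :=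
        mul_le_mul_of_nonneg_right (le_abs_self C) (by linarith)
    _ ≤ _ := mul_le_mul_of_nonneg_left (by linarith) (abs_nonneg C)

theorem FI_bd (hS : G_SOB) (hP : G_PRS) (hM : G_MVP) (D : QLD I J) (L : ℝ) :
    ∃ C, 0 ≤ C ∧ ∀ y : I ⊕ J → XS, qq 13 y ≤ L →
      ∀ i, sn 5 (D.FI (fun i => y (Sum.inl i)) (fun j => y (Sum.inr j)) i) ≤ C := by
  have h0 : ∀ i, ∃ C, 0 ≤ C ∧ ∀ z : I ⊕ J → XS, (∀ i, sn 12 (z i) ≤ L) →
      sn 12 (MvPolynomial.aeval z (D.G i)) ≤ C := fun i => mv12 hS hP hM (D.G i) L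
  choose C0 hC0 hC1 using h0
  obtain ⟨K, hK0, hK⟩ := unif C0
  refine ⟨K, hK0, fun y hy i => ?_⟩
  refine (sn_mono (by omega : 5 ≤ 12) _).trans ((hC1 i _ ?_).trans (hK i))
  rintro (i | j)
  · exact (sn_mono (by omega) _).trans ((sn_inl_le 13 y i).trans hy)
  · exact (sn_mono (by omega) _).trans ((sn_inr_le 13 y j).trans hy)

theorem FJ_bd (hS : G_SOB) (hP : G_PRS) (hM : G_MVP) (D : QLD I J) (L : ℝ) :
    ∃ C, 0 ≤ C ∧ ∀ y : I ⊕ J → XS, qq 13 y ≤ L →
      ∀ j, sn 4 (D.FJ (fun i => y (Sum.inl i)) (fun j => y (Sum.inr j)) j) ≤ C := by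
  have ha : ∀ q : Fin 3 × Fin 3, ∃ C, 0 ≤ C ∧ ∀ z : I → XS, (∀ i, sn 12 (z i) ≤ L) →
      sn 12 (MvPolynomial.aeval z (D.α q.1 q.2)) ≤ C := fun q => mv12 hS hP hM _ L
  have hb : ∀ q : Fin 3 × J, ∃ C, 0 ≤ C ∧ ∀ z : I ⊕ ((Fin 3 × I) ⊕ J) → XS,
      (∀ i, sn 12 (z i) ≤ L) → sn 12 (MvPolynomial.aeval z (D.β q.1 q.2)) ≤ C :=
    fun q => mv12 hS hP hM _ L
  have hw : ∀ j : J, ∃ C, 0 ≤ C ∧ ∀ z : (I ⊕ ((Fin 3 × I) ⊕ J)) ⊕ (Fin 3 × J) → XS,
      (∀ i, sn 12 (z i) ≤ L) → sn 12 (MvPolynomial.aeval z (D.W j)) ≤ C :=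
    fun q => mv12 hS hP hM _ L
  choose A0 hA0 hA using ha
  choose B0 hB0 hB using hb
  choose W0 hW0 hW using hw
  obtain ⟨KA, hKA0, hKA⟩ := unif A0
  obtain ⟨KB, hKB0, hKB⟩ := unif B0
  obtain ⟨KW, hKW0, hKW⟩ := unif W0
  obtain ⟨P, hPr⟩ := (hP hS).2.2.2.2.1 12 (by omega)
  refine ⟨2 * (10 * (2 * (10 * (|P| * (KA * |L|)) + KB)) + KW), by positivity,
    fun y hy j => ?_⟩
  set u : I → XS := fun i => y (Sum.inl i) with hu
  set v : J → XS := fun j => y (Sum.inr j) with hv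
  have hui : ∀ i, sn 13 (u i) ≤ L := fun i =>
    (sn_mono (by omega) _).trans ((sn_inl_le 13 y i).trans hy)
  have hvj : ∀ j, sn 13 (v j) ≤ L := fun j => (sn_inr_le 13 y j).trans hy
  have hz : ∀ q, sn 12 (zj u v q) ≤ L := by
    rintro (i | p | j)
    · exact (sn_mono (by omega) _).trans (hui i)
    · exact (sn_Ed _ _ _).trans (hui p.2)
    · exact (sn_mono (by omega) _).trans (hvj j)
  have hz' : ∀ q, sn 12 (zj' u v q) ≤ L := by
    rintro (q | p)
    · exact hz q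
    · exact (sn_Ed _ _ _).trans (hvj p.2)
  have h1 : ∀ i k, sn 5 (MvPolynomial.aeval u (D.α i k) * Ed k (v j)) ≤ |P| * (KA * |L|) := by
    intro i k
    refine (sn_mono (by omega : 5 ≤ 12) _).trans ((hPr _ _).trans ?_)
    have h2 := (hA (i, k) u fun i => (sn_mono (by omega) _).trans (hui i)).trans (hKA (i, k))
    have h3 : sn 12 (Ed k (v j)) ≤ |L| := (sn_Ed _ _ _).trans ((hvj j).trans (le_abs_self L))
    calc P * (sn 12 (MvPolynomial.aeval u (D.α i k)) * sn 12 (Ed k (v j)))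
        ≤ |P| * (sn 12 (MvPolynomial.aeval u (D.α i k)) * sn 12 (Ed k (v j))) :=
          mul_le_mul_of_nonneg_right (le_abs_self P) (mul_nonneg (sn_nonneg _ _) (sn_nonneg _ _))
      _ ≤ |P| * (KA * |L|) := mul_le_mul_of_nonneg_left
          (mul_le_mul h2 h3 (sn_nonneg _ _) hKA0) (abs_nonneg P)
  have h2 : ∀ i, sn 5 ((∑ k, MvPolynomial.aeval u (D.α i k) * Ed k (v j)) +
      MvPolynomial.aeval (zj u v) (D.β i j)) ≤ 2 * (10 * (|P| * (KA * |L|)) + KB) := by
    intro i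
    refine (sn_add_le _ _ _).trans ?_
    have h3 := sn_sum3_le 5 (fun k => MvPolynomial.aeval u (D.α i k) * Ed k (v j))
      (|P| * (KA * |L|)) (h1 i)
    have h4 := (sn_mono (by omega : 5 ≤ 12) _).trans
      ((hB (i, j) (zj u v) hz).trans (hKB (i, j)))
    linarith
  have h3 : sn 4 (∑ i, Ed i ((∑ k, MvPolynomial.aeval u (D.α i k) * Ed k (v j)) +
      MvPolynomial.aeval (zj u v) (D.β i j))) ≤ 10 * (2 * (10 * (|P| * (KA * |L|)) + KB)) :=
    sn_sum3_le 4 _ _ fun i => (sn_Ed 4 i _).trans (h2 i)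
  have h4 : sn 4 (MvPolynomial.aeval (zj' u v) (D.W j)) ≤ KW :=
    (sn_mono (by omega : 4 ≤ 12) _).trans ((hW j (zj' u v) hz').trans (hKW j))
  unfold QLD.FJ
  refine (sn_add_le _ _ _).trans ?_
  linarith

theorem FF_bd (hS : G_SOB) (hP : G_PRS) (hM : G_MVP) (D : QLD I J) (L : ℝ) :
    ∃ C, ∀ y : I ⊕ J → XS, qq 13 y ≤ L → qq 4 (D.FF y) ≤ C := by
  obtain ⟨C1, hC10, hC1⟩ := FI_bd hS hP hM D L
  obtain ⟨C2, hC20, hC2⟩ := FJ_bd hS hP hM D L
  refine ⟨∑ _i : I, C1 + ∑ _j : J, C2, fun y hy => ?_⟩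
  unfold qq
  rw [Fintype.sum_sum_type]
  exact add_le_add (Finset.sum_le_sum fun i _ => hC1 y hy i)
    (Finset.sum_le_sum fun j _ => hC2 y hy j)

theorem qas : G_QAS := by
  intro hmain hS hP hM hsc hF3 hF4 hF1 I J _ _ D u0 v0 lam ρ hlam hρ hell
  obtain ⟨S, hSB⟩ := hsc (I ⊕ J) kap
  have hq : ∀ m y, S.q m y = qq m y := fun m y => hSB m y y
  have hB : ∀ m y z, S.B m y z = bb m y z := fun m y z => hSB m y z
  set y0 : I ⊕ J → XS := Sum.elim u0 v0 with hy0
  set R : ℝ := 2 * (1 + qq 13 y0) with hR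
  obtain ⟨Cs, hCs⟩ := hS
  have hS : G_SOB := ⟨Cs, hCs⟩
  set r : ℝ := ρ ^ 2 / (|Cs| + 1) with hr
  have hrpos : 0 < r := by positivity
  have hclose : ∀ y : I ⊕ J → XS, S.q 4 (y - y0) ≤ r →
      ∀ i, ∀ x ≠ 0, |(y (Sum.inl i)).1 x - (u0 i).1 x| ≤ ρ := by
    intro y hy i x hx
    rw [hq] at hy
    have h1 := hCs (y (Sum.inl i) - u0 i) x hx
    have h2 : sn 4 (y (Sum.inl i) - u0 i) ≤ r := by
      have h3 := (sn_inl_le 4 (y - y0) i).trans hy
      have h4 : (y - y0) (Sum.inl i) = y (Sum.inl i) - u0 i := rfl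
      rw [h4] at h3
      exact (sn_mono (by omega) _).trans h3
    have h3 : ((y (Sum.inl i)).1 x - (u0 i).1 x) ^ 2 ≤ ρ ^ 2 := by
      have h4 : (y (Sum.inl i) - u0 i).1 x = (y (Sum.inl i)).1 x - (u0 i).1 x := rfl
      rw [← h4]
      refine h1.trans ?_
      calc Cs * sn 4 (y (Sum.inl i) - u0 i) ≤ |Cs| * sn 4 (y (Sum.inl i) - u0 i) :=
            mul_le_mul_of_nonneg_right (le_abs_self Cs) (sn_nonneg _ _)
        _ ≤ |Cs| * r := mul_le_mul_of_nonneg_left h2 (abs_nonneg _)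
        _ ≤ ρ ^ 2 := by
          rw [hr, mul_div_assoc', div_le_iff₀ (by positivity)]
          nlinarith [abs_nonneg Cs, sq_nonneg ρ]
    exact abs_le_of_sq_le_sq h3 hρ.le
  obtain ⟨C1, hC10, hC1⟩ := hF3 I J D u0 lam ρ hlam hell 13 le_rfl R
  obtain ⟨C2, hC2⟩ := FF_bd hS hP hM D R
  have hq0 := qq_nonneg 13 y0
  obtain ⟨τ, hτ, hsm, hsm'⟩ : ∃ τ : ℝ, 0 < τ ∧
      Real.exp (2 * C1 * τ) * (1 + qq 13 y0) < 1 + R ∧ C2 * τ ^ 2 < r := by
    have h1 : ∀ᶠ τ : ℝ in 𝓝 0, Real.exp (2 * C1 * τ) * (1 + qq 13 y0) < 1 + R := by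
      have h2 : ContinuousAt (fun τ : ℝ => Real.exp (2 * C1 * τ) * (1 + qq 13 y0)) 0 := by
        fun_prop
      refine h2.eventually_lt_const ?_
      simp only [mul_zero, Real.exp_zero, one_mul]
      linarith
    have h2 : ∀ᶠ τ : ℝ in 𝓝 0, C2 * τ ^ 2 < r := by
      have h2 : ContinuousAt (fun τ : ℝ => C2 * τ ^ 2) 0 := by fun_prop
      refine h2.eventually_lt_const ?_
      simpa using hrpos
    have h3 : ∀ᶠ τ : ℝ in 𝓝[>] 0, 0 < τ ∧
        Real.exp (2 * C1 * τ) * (1 + qq 13 y0) < 1 + R ∧ C2 * τ ^ 2 < r := by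
      filter_upwards [self_mem_nhdsWithin, nhdsWithin_le_nhds h1, nhdsWithin_le_nhds h2]
        with τ a b c
      exact ⟨a, b, c⟩
    exact h3.exists
  let E : Evo S :=
    { F := fun _ => D.FF
      T := τ
      τ := τ
      u0 := y0
      s := 13
      m0 := 4
      m4 := 12
      R := R
      r := r
      C1 := C1
      C2 := C2
      hτ := hτ
      hτT := le_rfl
      hC1 := hC10
      hr := hrpos
      F0 := by
        intro t x t' x' _ _ _ hx m
        obtain ⟨C, hC⟩ := hF1 hS hP hM I J D m (2 * (1 + qq (m + 10) x'))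
        have h1 : ∀ᶠ n in atTop, qq (m + 10) (x n) ≤ 2 * (1 + qq (m + 10) x') := by
          have h2 := (hx (m + 10)).eventually_le_const (zero_lt_one)
          filter_upwards [h2] with n hn
          have h3 := q_add_le S (m + 10) (x n - x') x'
          rw [sub_add_cancel, hq (m + 10) (x n), hq (m + 10) x'] at h3
          linarith
        have h2 : qq (m + 10) x' ≤ 2 * (1 + qq (m + 10) x') := by
          have := qq_nonneg (m + 10) x'
          linarith
        have h3 : Tendsto (fun n => C * S.q (m + 2) (x n - x')) atTop (𝓝 0) := by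
          have := (hx (m + 2)).const_mul C
          rwa [mul_zero] at this
        refine squeeze_zero' (Eventually.of_forall fun n => S.q_nonneg _ _) ?_ h3
        filter_upwards [h1] with n hn
        rw [hq, hq]
        exact hC (x n) x' hn h2
      F1 := by
        intro m
        refine ⟨m + 10, fun L => ?_⟩
        obtain ⟨C, hC⟩ := hF1 hS hP hM I J D m |L|
        refine ⟨2 * (|C| * |L| + qq m (D.FF 0)), fun t _ x hx => ?_⟩
        have h1 : qq (m + 10) x ≤ |L| := by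
          rw [← hq]
          exact hx.trans (le_abs_self L)
        have h2 : qq (m + 10) (0 : I ⊕ J → XS) ≤ |L| := by
          rw [← hq, S.q_zero]
          exact abs_nonneg L
        have h3 := hC x 0 h1 h2
        rw [sub_zero] at h3
        have h4 := q_add_le S m (D.FF x - D.FF 0) (D.FF 0)
        rw [sub_add_cancel, hq m (D.FF x - D.FF 0), hq m (D.FF 0)] at h4
        have h5 : C * qq (m + 2) x ≤ |C| * |L| := by
          calc C * qq (m + 2) x ≤ |C| * qq (m + 2) x :=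
                mul_le_mul_of_nonneg_right (le_abs_self C) (qq_nonneg _ _)
            _ ≤ |C| * |L| := mul_le_mul_of_nonneg_left
                ((qq_mono (by omega) x).trans h1) (abs_nonneg C)
        linarith
      F2 := by
        refine ⟨10, fun L => ?_⟩
        obtain ⟨C, hC⟩ := hF1 hS hP hM I J D 0 L
        refine ⟨|C|, fun t _ x y hx hy => ?_⟩
        rw [hq] at hx hy
        rw [hq, hq]
        refine (hC x y hx hy).trans ?_
        calc C * qq (0 + 2) (x - y) ≤ |C| * qq (0 + 2) (x - y) :=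
              mul_le_mul_of_nonneg_right (le_abs_self C) (qq_nonneg _ _)
          _ ≤ |C| * qq 10 (x - y) := mul_le_mul_of_nonneg_left
              (qq_mono (by omega) _) (abs_nonneg C)
      F3s := by
        intro t _ x hx hxr
        rw [hB, hq]
        rw [hq] at hx
        exact hC1 x (hclose x hxr) ((qq_mono (by omega) x).trans hx)
      F3 := by
        intro m hm L
        obtain ⟨C, hC0, hC⟩ := hF3 I J D u0 lam ρ hlam hell m hm.le L
        refine ⟨C, fun t _ x hx hxr hxL => ?_⟩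
        rw [hB, hq]
        rw [hq] at hxL
        exact hC x (hclose x hxr) hxL
      F4 := by
        intro L
        obtain ⟨C, hC⟩ := hF4 hS hP hM I J D u0 lam ρ hlam hell L
        refine ⟨C, fun t _ x y hx hxr hy hyr hxL hyL => ?_⟩
        rw [hB, hq]
        rw [hq] at hxL hyL
        exact hC x y (hclose x hxr) (hclose y hyr) hxL hyL
      F5 := by
        intro t _ x hx _
        rw [hq] at hx ⊢
        exact hC2 x hx
      small := by
        rw [hq]
        exact hsm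
      small' := hsm' }
  obtain ⟨y, hy⟩ := hmain (I ⊕ J → XS) (I ⊕ J → LL) S E
  have hinit : y 0 = y0 := hy.init
  have hbd := hy.bdd
  have hder := hy.der
  have hFc := fun m t ht δ hδ => sol_F_cont E hy m (t := t) ht (δ := δ) hδ
  refine ⟨τ, hτ, fun t i => y t (Sum.inl i), fun t j => y t (Sum.inr j), ?_, ?_, ?_, ?_⟩
  · funext i
    change y 0 (Sum.inl i) = u0 i
    rw [hinit]
    rfl
  · funext j
    change y 0 (Sum.inr j) = v0 j
    rw [hinit]
    rfl
  · intro i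
    refine ⟨fun m => ?_, fun m t ht δ hδ => ?_, fun m t ht δ hδ => ?_⟩
    · obtain ⟨L, hL⟩ := hbd m
      refine ⟨L, fun t ht => ?_⟩
      have h1 := hL t ht
      rw [hq] at h1
      exact (sn_mono (by omega) _).trans ((sn_inl_le m (y t) i).trans h1)
    · obtain ⟨η, hη, h⟩ := hFc m t ht δ hδ
      refine ⟨η, hη, fun s hs hst => ?_⟩
      have h1 := h s hs hst
      rw [hq] at h1
      exact (sn_mono (by omega) _).trans ((sn_inl_le m _ i).trans h1)
    · obtain ⟨η, hη, h⟩ := hder m t ht δ hδ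
      refine ⟨η, hη, fun s hs hst => ?_⟩
      have h1 := h s hs hst
      rw [hq] at h1
      exact (sn_mono (by omega) _).trans ((sn_inl_le m _ i).trans h1)
  · intro j
    refine ⟨fun m => ?_, fun m t ht δ hδ => ?_, fun m t ht δ hδ => ?_⟩
    · obtain ⟨L, hL⟩ := hbd m
      refine ⟨L, fun t ht => ?_⟩
      have h1 := hL t ht
      rw [hq] at h1
      exact (sn_inr_le m (y t) j).trans h1
    · obtain ⟨η, hη, h⟩ := hFc m t ht δ hδ
      refine ⟨η, hη, fun s hs hst => ?_⟩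
      have h1 := h s hs hst
      rw [hq] at h1
      exact (sn_inr_le m _ j).trans h1
    · obtain ⟨η, hη, h⟩ := hder m t ht δ hδ
      refine ⟨η, hη, fun s hs hst => ?_⟩
      have h1 := h s hs hst
      rw [hq] at h1
      exact (sn_inr_le m _ j).trans h1

end Pool.Agent.Helper14.RS
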